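import Pool.Agent.Lib.MP_07b2d0_nt.W.WNrm

set_option autoImplicit false
set_option linter.unusedSectionVars false
set_option linter.unusedVariables false

namespace Pool.Agent.Lib.MP_07b2d0_nt.W

open Pool.Agent.Lib.MP_6adaea_nt 
open scoped Classical

noncomputable section

variable {k K : Type} [Field k] [Field K] [Algebra k K] [IsAlgClosed k] [IsFF k K] [CharZero k]

open RatFunc in
theorem wrec_rat [IsFF k (RatFunc k)] {r : RatFunc k} (h : Dj r (dv k (X : RatFunc k))) :
    evD r (dv k X) = evD X (dv k r) := by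
  choose P hP hP' using rat_place_fin (k := k)
  obtain ⟨I, hI, hI'⟩ := rat_place_inf (k := k)
  have hd : ∀ c, dv k (X - C c : RatFunc k) = Finsupp.single (P c) 1 - Finsupp.single I 1 := by
    intro c
    have hne : P c ≠ I := fun e => by
      have := hP c
      rw [e, hI] at this
      omega
    ext w
    rw [dv_apply, Finsupp.sub_apply]
    by_cases h1 : w = P c
    · simp [h1, hP, hne]
    by_cases h2 : w = I
    · simp [h2, hI, hne.symm]
    have h3 := mt (hP' c w) h1
    have h4 : ¬ w.ord (X - C c) < 0 := fun h4 => h2 (hI' w (by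
      have := rat_neg h4 c
      rw [sub_add_cancel] at this
      omega))
    simp [h1, h2]
    omega
  have hd0 : dv k (X : RatFunc k) = Finsupp.single (P 0) 1 - Finsupp.single I 1 := by
    simpa using hd 0
  have h00 : (P 0).ord X = 1 := by simpa using hP 0
  have hI0 : I.ord X = -1 := by simpa using hI 0
  have hv : ∀ c a, val (P c) (X - C a) = c - a := fun c a => val_eq (by
    rw [map_sub, algebraMap_eq_C, sub_sub_sub_cancel_right]
    exact Or.inr (hP c).ge)
  have ho : ∀ c a, c ≠ a → (P c).ord (X - C a) = 0 := fun c a e =>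
    rat_other (by rw [hP]; exact one_pos) e.symm
  let R : RatFunc k → Prop := fun s => Dj s (dv k X) ∧ evD s (dv k X) = evD X (dv k s)
  have key : ∀ s : RatFunc k, s ≠ 0 → ∃ a b : ℤ, R (s * X ^ a * (X - C 1) ^ b) := by
    refine rat_ind _ (fun c hc => ⟨0, 0, ?_⟩) (fun c _ => ?_) (fun x y hx hy h1 h2 _ => ?_)
      fun x h1 hx => ?_
    · have hc' : c ≠ 0 := fun e => hc (by simp [e])
      rw [zpow_zero, zpow_zero, mul_one, mul_one, ← algebraMap_eq_C]
      exact ⟨dj_const hc' _, by rw [evD_const hc', deg_dv, dv_const, evD_zero, zpow_zero]⟩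
    · by_cases hc : c = 0
      · refine ⟨-1, 0, ?_⟩
        rw [hc, map_zero, sub_zero, zpow_neg_one, mul_inv_cancel₀ X_ne_zero, zpow_zero, mul_one]
        exact ⟨dj_one _, by rw [evD_one, dv_one, evD_zero]⟩
      refine ⟨0, -1, ?_⟩
      rw [zpow_zero, mul_one, zpow_neg_one, ← div_eq_mul_inv]
      have e0 := div_ne_zero (rat_ne c) (rat_ne 1)
      have e1 := dj_single e0 (v := P 0) (by
        rw [Place.ord_div _ (rat_ne c) (rat_ne 1), ho _ _ (Ne.symm hc), ho _ _ zero_ne_one,
          sub_self]) 1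
      have e2 := dj_single e0 (v := I) (by
        rw [Place.ord_div _ (rat_ne c) (rat_ne 1), hI, hI, sub_self]) 1
      have e3 : ∀ a, a ≠ 0 → Dj X (Finsupp.single (P a) 1) := fun a ha =>
        dj_single X_ne_zero (by simpa using ho a 0 ha) 1
      have e4 : val I ((X - C c) / (X - C 1)) = 1 := val_eq (by
        have : (X - C c) / (X - C 1) - algebraMap k (RatFunc k) 1 =
            algebraMap k (RatFunc k) (1 - c) * (X - C 1)⁻¹ := by
          have := rat_ne (1 : k)
          simp only [map_sub, algebraMap_eq_C, map_one] at this ⊢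
          field_simp
          ring
        rw [this]
        exact (I.ge_const (1 - c)).mul (m' := 1) (Or.inr (by rw [Place.ord_inv, hI]; rfl)))
      have e5 : ∀ a, val (P a) X = a := fun a => by simpa using hv a 0
      refine ⟨hd0 ▸ e1.sub e2, ?_⟩
      rw [hd0, evD_sub e1 e2, dv_div (rat_ne c) (rat_ne 1), hd, hd, sub_sub_sub_cancel_right,
        evD_sub (e3 c hc) (e3 1 one_ne_zero)]
      simp only [evD_single, zpow_one, e4, e5]
      rw [val_div (Or.inr (ho _ _ (Ne.symm hc)).ge) (ho _ _ zero_ne_one), hv, hv]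
      simp
    · obtain ⟨a, b, h3, h4⟩ := h1 hx
      obtain ⟨a', b', h5, h6⟩ := h2 hy
      refine ⟨a + a', b + b', ?_⟩
      rw [zpow_add₀ X_ne_zero, zpow_add₀ (rat_ne 1), mul_mul_mul_comm x, mul_mul_mul_comm (x * _)]
      exact ⟨h3.mul h5, by rw [evD_mul h3 h5, dv_mul h3.1 h5.1,
        evD_add (dj_dv_symm X_ne_zero h3) (dj_dv_symm X_ne_zero h5), h4, h6]⟩
    · obtain ⟨a, b, h3, h4⟩ := h1 fun e => hx (by simp [e])
      refine ⟨-a, -b, ?_⟩
      rw [zpow_neg, zpow_neg, ← mul_inv, ← mul_inv]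
      exact ⟨h3.inv, by rw [evD_inv h3, dv_inv, evD_neg (dj_dv_symm X_ne_zero h3), h4]⟩
  obtain ⟨a, b, h1, h2⟩ := key r h.1
  have e : ∀ w : Place k (RatFunc k), w.ord X ≠ 0 → a * w.ord X + b * w.ord (X - C 1) = 0 := by
    intro w hw
    have := h1.2 w hw
    rwa [w.ord_mul (left_ne_zero_of_mul h1.1) (right_ne_zero_of_mul h1.1),
      w.ord_mul h.1 (zpow_ne_zero _ X_ne_zero), h.2 w hw, zero_add, w.ord_zpow, w.ord_zpow] at this
  have e1 := e (P 0) (by omega)
  have e2 := e I (by omega)
  rw [h00, ho _ _ zero_ne_one] at e1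
  rw [hI0, hI] at e2
  rwa [show a = 0 by omega, show b = 0 by omega, zpow_zero, zpow_zero, mul_one, mul_one] at h2

theorem wrec_up {L : Type} [Field L] [Algebra k L] [Algebra L K] [IsScalarTower k L K] [IsFF k L]
    [FiniteDimensional L K] [Algebra.IsSeparable L K] {f : K} {x : L} (hx : x ≠ 0)
    (h : Dj f (dv k (algebraMap L K x)))
    (H : Dj (Algebra.norm L f) (dv k x) → evD (Algebra.norm L f) (dv k x) =
      evD x (dv k (Algebra.norm L f))) :
    evD f (dv k (algebraMap L K x)) = evD (algebraMap L K x) (dv k f) := by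
  choose pl e he using fun w : Place k K => w.exists_under (L := L)
  have hpl : ∀ v y, pl v = y ↔ ∃ e, v.Over y e := fun v y =>
    ⟨fun h => ⟨_, h ▸ he v⟩, fun ⟨_, h⟩ => (he v).unique_under h⟩
  have hne : ∀ v : Place k K, v.ord (algebraMap L K x) ≠ 0 ↔ (pl v).ord x ≠ 0 := fun v => by
    simp [(he v).2, (he v).1.ne']
  have hS : ∀ y ∈ (dv k x).support, ∀ v, v ∈ (dv k (algebraMap L K x)).support.filter
      (fun v => pl v = y) ↔ ∃ e, v.Over y e := fun y hy v => by
    rw [Finset.mem_filter, Finsupp.mem_support_iff, dv_apply, hne, ← hpl, and_iff_right_iff_imp]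
    rintro rfl
    exact Finsupp.mem_support_iff.1 hy
  have h0 : ∀ y, ∀ v ∈ (dv k (algebraMap L K x)).support.filter (fun v => pl v = y),
      v.ord f = 0 := fun y v hv => h.2 v (Finsupp.mem_support_iff.1 (Finset.mem_filter.1 hv).1)
  have h1 : Dj (Algebra.norm L f) (dv k x) := ⟨Algebra.norm_ne_zero_iff.2 h.1, fun y hy => by
    rw [norm_ord (hS y (Finsupp.mem_support_iff.2 hy)), Finset.sum_eq_zero (h0 y)]⟩
  have h2 : dv k (Algebra.norm L f) = ∑ v ∈ (dv k f).support, Finsupp.single (pl v) (v.ord f) := by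
    ext y
    obtain ⟨S, hS⟩ := exists_fibre (K := K) y
    simp only [dv_apply, norm_ord hS, Finsupp.finsetSum_apply, Finsupp.single_apply,
      ← Finset.sum_filter]
    refine (Finset.sum_subset (fun v hv => ?_) fun v hv hv' => ?_).symm
    · exact (hS v).2 ((hpl v y).1 (Finset.mem_filter.1 hv).2)
    · by_contra h3
      exact hv' (Finset.mem_filter.2 ⟨Finsupp.mem_support_iff.2 h3, (hpl v y).2 ((hS v).1 hv)⟩)
  have h3 := H h1
  rw [evD_eq_prod _ subset_rfl, h2, evD_sum hx fun v hv => dj_single hx (by_contra fun h4 =>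
    Finsupp.mem_support_iff.1 hv (h.2 v ((hne v).2 h4))) _] at h3
  rw [evD_eq_prod _ subset_rfl, evD_eq_prod _ subset_rfl, ← Finset.prod_fiberwise_of_maps_to
    (g := pl) (t := (dv k x).support) fun v hv =>
      Finsupp.mem_support_iff.2 ((hne v).1 (Finsupp.mem_support_iff.1 hv))]
  refine (Finset.prod_congr rfl fun y hy => ?_).trans
    (h3.trans (Finset.prod_congr rfl fun v _ => ?_))
  · rw [(norm_val (e := e) (hS y hy) (fun v hv => (Finset.mem_filter.1 hv).2 ▸ he v)
      fun v hv => Or.inr (h0 y v hv).ge).2, ← Finset.prod_zpow]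
    refine Finset.prod_congr rfl fun v hv => ?_
    rw [dv_apply, dv_apply, (he v).2, (Finset.mem_filter.1 hv).2, zpow_mul, zpow_natCast]
  · rw [evD_single, val_over (he v), dv_apply]

/-- Weil reciprocity -/
theorem recip {f g : K} (hg : g ≠ 0) (h : Dj f (dv k g)) : evD f (dv k g) = evD g (dv k f) := by
  by_cases h0 : dv k g = 0
  · obtain ⟨c, rfl⟩ := const_of_dv h0
    rw [h0, evD_zero, evD_const (by simpa using hg), deg_dv, zpow_zero]
  obtain ⟨v, hv⟩ := Finsupp.ne_iff.1 h0
  obtain ⟨_, _, _, rfl, -⟩ := ff2_alg (v.transcendental hv)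
  have := sep0 k (RatFunc k) K
  have := (IsFF.of_sub (k := k) (K := K) (RatFunc k)).1
  exact wrec_up RatFunc.X_ne_zero h wrec_rat

end

end Pool.Agent.Lib.MP_07b2d0_nt.W
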