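import Pool.Agent.Lib.MP_07b2d0_nt.W.WRie0

set_option autoImplicit false
set_option linter.unusedSectionVars false
set_option linter.unusedVariables false

namespace Pool.Agent.Lib.MP_07b2d0_nt.W

open Pool.Agent.Lib.MP_6adaea_nt Module
open scoped Classical

noncomputable section

variable {k K : Type} [Field k] [Field K] [Algebra k K] [IsAlgClosed k] [IsFF k K] [CharZero k]

variable (k K) in
/-- `g` is the genus -/
structure IsGen (g : ℕ) : Prop where
  le : ∀ D : Dv k K, deg D + 1 - g ≤ ell D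
  eq : ∃ N : ℤ, ∀ D : Dv k K, N ≤ deg D → (ell D : ℤ) = deg D + 1 - g

variable (k K) in
/-- `g` is the maximum of `deg D + 1 - ell D` -/
theorem exists_gen : ∃ g, IsGen k K g := by
  obtain ⟨C, hC⟩ := riemann0 (k := k) (K := K)
  have h0 : deg (0 : Dv k K) + 1 - ell (0 : Dv k K) = 0 := by rw [map_zero, ell_zero]; rfl
  obtain ⟨u, ⟨D₀, h1⟩, h2⟩ := Int.exists_greatest_of_bdd
    (P := fun z => ∃ D : Dv k K, deg D + 1 - ell D = z)
    ⟨C + 1, by rintro _ ⟨D, rfl⟩; have := hC D; omega⟩ ⟨0, 0, h0⟩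
  obtain ⟨g, rfl⟩ := Int.eq_ofNat_of_zero_le (h2 0 ⟨0, h0⟩)
  have h3 : ∀ D : Dv k K, deg D + 1 - g ≤ ell D := fun D => by
    have := h2 _ ⟨D, rfl⟩
    omega
  refine ⟨g, h3, deg D₀ + g, fun D hD => le_antisymm ?_ (h3 D)⟩
  have h4 := h3 (D - D₀)
  rw [map_sub] at h4
  obtain ⟨f, hf, hE⟩ := (ell_pos_iff (D := D - D₀)).1 (by omega)
  have h5 := ell_add_le D₀ hE
  rw [show D₀ + (D - D₀ + dv k f) = D + dv k f by abel, ell_add_dv D hf, map_add, map_sub,
    deg_dv] at h5
  omega

/-- `t - c` has a zero for every constant `c` -/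
instance infinite_place : Infinite (Place k K) := by
  obtain ⟨t, ht, -⟩ := IsFF.ex (k := k) (K := K)
  have h : ∀ c : k, ∃ v : Place k K, v.Ge (t - algebraMap k K c) 1 := fun c => by
    by_contra hc
    obtain ⟨d, hd⟩ := const_of_ge (k := k) (f := (t - algebraMap k K c)⁻¹) fun v => by
      have := (Place.not_ge_iff.1 fun h => hc ⟨v, h⟩).2
      exact Place.Ge.of_le (by rw [Place.ord_inv]; omega)
    refine ht ?_
    rw [show t = algebraMap k K (d⁻¹ + c) by rw [map_add, map_inv₀, ← hd, inv_inv, sub_add_cancel]]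
    exact isAlgebraic_algebraMap _
  choose φ hφ using h
  refine Infinite.of_injective φ fun c d e => ?_
  have h1 := (hφ d).sub (e ▸ hφ c)
  rw [sub_sub_sub_cancel_left, ← map_sub] at h1
  exact sub_eq_zero.1 (Place.const_eq_zero_of_ge h1)

theorem IsGen.eff {g : ℕ} (h : IsGen k K g) {D : Dv k K} (hD : (g : ℤ) ≤ deg D) :
    ∃ f : K, f ≠ 0 ∧ 0 ≤ D + dv k f := by
  have := h.le D
  exact ell_pos_iff.1 (by omega)

/-- For large degree `LL (D - single v 1) ≠ LL D`; a vector space over an infinite field is not a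
finite union of proper subspaces (`Submodule.exists_forall_notMem_of_forall_ne_top`). -/
theorem exists_exact : ∃ N : ℤ, ∀ D : Dv k K, N ≤ deg D → ∀ S : Finset (Place k K),
    ∃ f : K, f ≠ 0 ∧ 0 ≤ D + dv k f ∧ ∀ v ∈ S, (D + dv k f) v = 0 := by
  obtain ⟨g, -, N, hN⟩ := exists_gen k K
  obtain ⟨v0⟩ : Nonempty (Place k K) := inferInstance
  refine ⟨N + 1, fun D hD S => ?_⟩
  obtain ⟨f, hf⟩ := Submodule.exists_forall_notMem_of_forall_ne_top
    (fun v : (insert v0 S : Finset _) => (LL (D - Finsupp.single v.1 1)).comap (LL D).subtype)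
    fun v e => by
      have h1 : ell D ≤ ell (D - Finsupp.single v.1 1) :=
        Submodule.finrank_mono (Submodule.comap_subtype_eq_top.1 e)
      have h2 := hN D (by omega)
      have h3 := hN (D - Finsupp.single v.1 1) (by rw [map_sub, deg_single]; omega)
      rw [map_sub, deg_single] at h3
      omega
  have h0 : f.1 ≠ 0 := fun e => hf ⟨v0, Finset.mem_insert_self _ _⟩ (by
    rw [Submodule.mem_comap, Submodule.subtype_apply, e]
    exact zero_mem _)
  have h1 := (mem_LL_iff h0).1 f.2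
  refine ⟨f, h0, h1, fun v hv => by_contra fun h2 => hf ⟨v, Finset.mem_insert_of_mem hv⟩
    ((mem_LL_iff h0).2 fun w => ?_)⟩
  have h3 := h1 w
  simp only [Finsupp.add_apply, Finsupp.sub_apply, Finsupp.single_apply, Finsupp.coe_zero,
    Pi.zero_apply] at h2 h3 ⊢
  split_ifs with e
  · subst e
    omega
  · omega

/-- add a large multiple of a place outside `S` -/
theorem move (D : Dv k K) (S : Finset (Place k K)) :
    ∃ f : K, f ≠ 0 ∧ ∀ v ∈ S, (D + dv k f) v = 0 := by
  obtain ⟨N, hN⟩ := exists_exact (k := k) (K := K)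
  obtain ⟨x, hx⟩ := Infinite.exists_notMem_finset S
  obtain ⟨f, h0, -, h1⟩ := hN (D + Finsupp.single x (N - deg D))
    (by rw [map_add, deg_single]; omega) S
  refine ⟨f, h0, fun v hv => ?_⟩
  have := h1 v hv
  rwa [add_right_comm, Finsupp.add_apply, Finsupp.single_eq_of_ne (ne_of_mem_of_not_mem hv hx),
    add_zero] at this

theorem approx (S : Finset (Place k K)) (m : Place k K → ℤ) :
    ∃ f : K, f ≠ 0 ∧ ∀ v ∈ S, v.ord f = m v := by
  obtain ⟨f, h0, h1⟩ := move (Finsupp.onFinset S (fun v => if v ∈ S then -m v else 0)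
    fun v h => by_contra fun h' => h (if_neg h')) S
  refine ⟨f, h0, fun v hv => ?_⟩
  have := h1 v hv
  rw [Finsupp.add_apply, Finsupp.onFinset_apply, if_pos hv, dv_apply] at this
  omega

theorem exists_rep (c : Pic k K) (S : Finset (Place k K)) :
    ∃ D : Dv k K, cl D = c ∧ ∀ v ∈ S, D v = 0 := by
  obtain ⟨D, rfl⟩ := cl_surj c
  obtain ⟨f, h0, h1⟩ := move D S
  exact ⟨_, by rw [map_add, cl_dv h0, add_zero], h1⟩

theorem exists_pole (x : Place k K) : ∃ N₀ : ℕ, ∀ N : ℕ, N₀ ≤ N →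
    ∃ y : K, y ≠ 0 ∧ x.ord y = -N ∧ ∀ v : Place k K, v ≠ x → v.Ge y 0 := by
  obtain ⟨N, hN⟩ := exists_exact (k := k) (K := K)
  refine ⟨N.toNat, fun n hn => ?_⟩
  obtain ⟨f, h0, h1, h2⟩ := hN (Finsupp.single x n) (by rw [deg_single]; omega) {x}
  refine ⟨f, h0, ?_, fun v hv => Or.inr ?_⟩
  · have := h2 x (Finset.mem_singleton_self x)
    rw [Finsupp.add_apply, Finsupp.single_eq_same, dv_apply] at this
    omega
  · simpa [Finsupp.single_eq_of_ne hv] using h1 v

theorem wrie_deg_sum {ι : Type} (s : Finset ι) (x : ι → Place k K) :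
    deg (∑ i ∈ s, Finsupp.single (x i) (1 : ℤ) : Dv k K) = s.card := by
  rw [map_sum, Finset.sum_congr rfl fun i _ => deg_single (x i) 1]
  simp

theorem wrie_sum_nonneg {ι : Type} (s : Finset ι) (x : ι → Place k K) :
    0 ≤ (∑ i ∈ s, Finsupp.single (x i) (1 : ℤ) : Dv k K) :=
  Finset.sum_nonneg fun _ _ => Finsupp.single_nonneg.2 zero_le_one

theorem wrie_step {D D' : Dv k K} {Q : Place k K} (h : ell (D + Finsupp.single Q 1) ≠ ell D)
    (h1 : D ≤ D') (h2 : D' Q = D Q) : ell D' < ell (D' + Finsupp.single Q 1) := by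
  have h0 : (0 : Dv k K) ≤ Finsupp.single Q 1 := Finsupp.single_nonneg.2 zero_le_one
  have h3 : ¬ LL (D + Finsupp.single Q 1) ≤ LL D := fun h3 => h (by
    rw [ell, ell, le_antisymm h3 (LL_mono (le_add_of_nonneg_right h0))])
  obtain ⟨f, hf, hf'⟩ := SetLike.not_le_iff_exists.1 h3
  refine Submodule.finrank_lt_finrank_of_lt (SetLike.lt_iff_le_and_exists.2
    ⟨LL_mono (le_add_of_nonneg_right h0), f, LL_mono (add_le_add_left h1 _) hf, fun h4 => hf' ?_⟩)
  intro v
  by_cases hv : v = Q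
  · subst hv
    exact h2 ▸ h4 v
  · have := hf v
    rwa [Finsupp.add_apply, Finsupp.single_eq_of_ne hv, add_zero] at this

theorem wrie_add {D : Dv k K} (S : Finset (Place k K))
    (hS : ∀ Q ∈ S, ell (D + Finsupp.single Q 1) ≠ ell D) :
    ell D + S.card ≤ ell (D + ∑ Q ∈ S, Finsupp.single Q 1) := by
  induction S using Finset.induction_on with
  | empty => simp
  | insert Q S hQ ih =>
    have h1 := ih fun x hx => hS x (Finset.mem_insert_of_mem hx)
    have h2 := wrie_step (D' := D + ∑ Q ∈ S, Finsupp.single Q 1) (hS Q (Finset.mem_insert_self _ _))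
      (le_add_of_nonneg_right (wrie_sum_nonneg S id)) (by
        rw [Finsupp.add_apply, Finsupp.finsetSum_apply, Finset.sum_eq_zero, add_zero]
        exact fun x hx => Finsupp.single_eq_of_ne fun e => hQ (e ▸ hx))
    rw [Finset.sum_insert hQ, Finset.card_insert_of_notMem hQ, add_comm (Finsupp.single Q 1),
      ← add_assoc D]
    omega

/-- a special divisor keeps its dimension when a general place is added -/
theorem IsGen.cof {g : ℕ} (h : IsGen k K g) {D : Dv k K} (hD : deg D + 1 - g < ell D) :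
    {Q : Place k K | ell (D + Finsupp.single Q 1) ≠ ell D}.Finite := by
  by_contra hT
  obtain ⟨N, hN⟩ := h.eq
  obtain ⟨S, hS, hc⟩ := Set.Infinite.exists_subset_card_eq hT (N - deg D).toNat
  have h1 := wrie_add (D := D) S fun Q hQ => hS hQ
  have h2 : deg (D + ∑ Q ∈ S, Finsupp.single Q 1) = deg D + S.card := by
    rw [map_add, wrie_deg_sum S fun Q => Q]
  have h3 := hN (D + ∑ Q ∈ S, Finsupp.single Q 1) (by omega)
  omega

/-- induction up to `g` with `cof`, starting from `ell_zero` -/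
theorem IsGen.choose {g : ℕ} (h : IsGen k K g) (P : ∀ j, (Fin j → Place k K) → Prop)
    (h0 : P 0 Fin.elim0) (hP : ∀ j x, P j x → {Q | P (j + 1) (Fin.cons Q x)}.Infinite) :
    ∃ x : Fin g → Place k K, P g x ∧ ell (∑ i, Finsupp.single (x i) (1 : ℤ) : Dv k K) = 1 := by
  have H : ∀ j, j ≤ g → ∃ x : Fin j → Place k K, P j x ∧
      ell (∑ i, Finsupp.single (x i) (1 : ℤ) : Dv k K) = 1 := by
    intro j
    induction j with
    | zero => exact fun _ => ⟨_, h0, by simpa using ell_zero⟩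
    | succ j ih =>
      intro hj
      obtain ⟨x, hx, h1⟩ := ih (by omega)
      have h2 := h.cof (D := ∑ i, Finsupp.single (x i) (1 : ℤ)) (by
        rw [wrie_deg_sum, h1, Finset.card_univ, Fintype.card_fin]
        omega)
      obtain ⟨Q, hQ, hQ'⟩ := ((hP j x hx).sdiff h2).nonempty
      refine ⟨Fin.cons Q x, hQ, ?_⟩
      rw [Fin.sum_univ_succ, add_comm]
      exact (not_not.1 hQ').trans h1
  exact H g le_rfl

theorem IsGen.nonspecial {g : ℕ} (h : IsGen k K g) :
    ∃ E : Dv k K, 0 ≤ E ∧ deg E = g ∧ ell E = 1 := by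
  obtain ⟨x, -, hx⟩ := h.choose (fun _ _ => True) trivial fun _ _ _ => Set.infinite_univ
  exact ⟨_, wrie_sum_nonneg _ x, by rw [wrie_deg_sum, Finset.card_univ, Fintype.card_fin], hx⟩

end

end Pool.Agent.Lib.MP_07b2d0_nt.W
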