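import Pool.Agent.Lib.MP_6adaea_nt.V.North

/-!
Function fields over an algebraically closed field of characteristic zero: the product formula.
-/

set_option autoImplicit false
set_option linter.unusedSectionVars false

namespace Pool.Agent.Lib.MP_07b2d0_nt.W

open Pool.Agent.Lib.MP_6adaea_nt Module Polynomial Place

theorem sep0 (k L K : Type) [Field k] [CharZero k] [Field L] [Field K] [Algebra k L] [Algebra L K]
    [FiniteDimensional L K] : Algebra.IsSeparable L K := by
  have : CharZero L := charZero_of_injective_algebraMap (algebraMap k L).injective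
  infer_instance

variable {k K : Type} [Field k] [Field K] [Algebra k K] [IsAlgClosed k] [CharZero k]

section galois
variable {L : Type} [Field L] [Algebra k L] [Algebra L K] [IsScalarTower k L K] [IsFF k L]
  [FiniteDimensional L K] [IsGalois L K]

/-- the order of the inertia group is the ramification index -/
theorem card_inertia0 {v : Place k L} {w : Place k K} {e : ℕ}
    (h : w.Over v e) : Nat.card (w.inertia L) = e := by
  let : MulSemiringAction (K ≃ₐ[L] K) (integralClosure v.O K) :=
    IsIntegralClosure.MulSemiringAction v.O L K _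
  have : IsGaloisGroup (K ≃ₐ[L] K) v.O (integralClosure v.O K) :=
    IsGaloisGroup.of_isFractionRing _ _ _ L K
  have hP := (inert_prime h).isPrime
  have hm := (inert_max v).isPrime
  have : PerfectField (inert_max v).asIdeal.ResidueField := by
    have : CharZero (inert_max v).asIdeal.ResidueField :=
      (((algebraMap v.O _).comp ((algebraMap k L).codRestrict v.O.toSubring
        fun c => v.mem_O.mpr (v.ge_const c))).charZero_iff (RingHom.injective _)).1 inferInstance
    infer_instance
  have h1 := Ideal.card_inertia_eq_ramificationIdxIn (G := K ≃ₐ[L] K) (inert_max v).asIdeal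
    (inert_prime h).asIdeal
  have h2 := inert_over v (inert_prime h)
  rw [inert_prime_eq] at h2
  rw [Ideal.ramificationIdxIn_eq_ramificationIdx _ (inert_prime h).asIdeal (K ≃ₐ[L] K),
    ← Ideal.ramificationIdx'_eq_ramificationIdx (inert_max v).asIdeal _ (inert_max v).ne_bot,
    h2.unique h] at h1
  have hs : ∀ (σ : K ≃ₐ[L] K) (a : integralClosure v.O K),
      algebraMap _ K (σ • a) = σ (algebraMap _ K a) := fun σ a => by
    exact algebraMap_galRestrict_apply v.O σ a
  rw [← h1]
  congr 2
  ext σ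
  rw [mem_inertia, Ideal.inertia, AddSubgroup.mem_inertia]
  constructor
  · intro hσ a
    have h3 := hσ _ (inert_ge h a)
    rw [← hs, ← map_sub] at h3
    exact h3
  · intro hσ x hx
    have h3 : ∀ a : integralClosure v.O K, w.Ge (σ (algebraMap _ K a) - algebraMap _ K a) 1 :=
      fun a => by
        rw [← hs, ← map_sub]
        exact hσ a
    rw [← inert_prime_eq h] at hx
    obtain ⟨a, s, hs⟩ := (inert_prime h).exists_primeCompl_mul_eq_of_integer x
      ((half_ge_zero _ _ x).mp hx)
    rw [inert_prime_eq h] at hx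
    obtain ⟨s1, s2⟩ := not_ge_iff.mp (show ¬ w.Ge (algebraMap _ K s.1) 1 from s.2)
    have s3 : ¬ w.Ge (σ (algebraMap _ K s.1)) 1 := fun h4 => s.2 (by
      have h5 := h4.sub (h3 s.1)
      rwa [sub_sub_cancel] at h5)
    obtain ⟨s4, s5⟩ := not_ge_iff.mp s3
    have h4 := (h3 a).sub (hx.mul (h3 s.1))
    have e1 : σ (algebraMap _ K a) - algebraMap _ K a -
        x * (σ (algebraMap _ K s.1) - algebraMap _ K s.1) =
        (σ x - x) * σ (algebraMap _ K s.1) := by
      rw [← hs, map_mul]
      ring
    rw [e1, ge_mul_iff s4] at h4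
    exact h4.mono (by omega)

theorem fibre_sum0 {v : Place k L} {S : Finset (Place k K)} (hS : ∀ w, w ∈ S ↔ ∃ e, w.Over v e)
    {w : Place k K} {e : ℕ} (h : w.Over v e) (f : Place k K → ℤ) :
    ∑ σ : K ≃ₐ[L] K, f (fibre_cj w σ) = e * ∑ u ∈ S, f u := by
  classical
  have : IsFF k K := IsFF.of_finite L K
  have hc := card_inertia0 h
  rw [← Finset.sum_fiberwise_of_maps_to (t := S) (g := fibre_cj (L := L) w)
    fun σ _ => (hS _).2 ⟨e, fibre_over h σ⟩, Finset.mul_sum]
  refine Finset.sum_congr rfl fun u hu => ?_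
  obtain ⟨e', h'⟩ := (hS u).1 hu
  obtain ⟨τ, rfl⟩ := fibre_surj h h'
  rw [Finset.sum_congr rfl (g := fun _ => f (fibre_cj w τ))
    fun σ hσ => by rw [(Finset.mem_filter.1 hσ).2], Finset.sum_const, nsmul_eq_mul]
  congr 2
  rw [← hc, ← Nat.card_eq_finsetCard]
  refine Nat.card_congr ((Equiv.mulRight τ⁻¹).subtypeEquiv fun σ => ?_)
  rw [Finset.mem_filter, Place.mem_inertia_iff]
  refine ⟨fun h1 x => ?_, fun h1 => ⟨Finset.mem_univ _, Place.ext (funext fun x => ?_)⟩⟩
  · have := congrArg (fun u : Place k K => u.ord (τ⁻¹ x)) h1.2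
    simpa [fibre_cj] using this
  · simpa [fibre_cj] using h1 (τ x)

theorem sum_fibre0 {v : Place k L} {S : Finset (Place k K)}
    (hS : ∀ w, w ∈ S ↔ ∃ e, w.Over v e) (x : K) :
    ∑ w ∈ S, w.ord x = v.ord (Algebra.norm L x) := by
  by_cases hx : x = 0
  · simp [hx]
  obtain ⟨w, e, h⟩ := exists_over (K := K) v
  have h1 := fibre_sum0 hS h fun u => u.ord x
  have h2 := h.2 (Algebra.norm L x)
  rw [Algebra.norm_eq_prod_automorphisms, w.ord_prod _ _ fun σ _ => by simpa using hx] at h2
  have he : (e : ℤ) ≠ 0 := by exact_mod_cast h.1.ne'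
  exact mul_left_cancel₀ he (h1.symm.trans h2)

theorem card_fibre0 {v : Place k L} {S : Finset (Place k K)}
    (hS : ∀ w, w ∈ S ↔ ∃ e, w.Over v e) {w : Place k K} {e : ℕ} (h : w.Over v e) :
    S.card * e = finrank L K := by
  have h1 := fibre_sum0 hS h fun _ => 1
  rw [← IsGalois.card_aut_eq_finrank, Nat.card_eq_fintype_card]
  simp only [Finset.sum_const, Finset.card_univ, nsmul_eq_mul, mul_one] at h1
  rw [mul_comm]
  exact_mod_cast h1.symm

variable (K) in
/-- summation over the places above a finite set of places -/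
theorem ff2_sum0 (T : Finset (Place k L)) : ∃ S : Finset (Place k K),
    (∀ w, w ∈ S ↔ ∃ v ∈ T, ∃ e, w.Over v e) ∧
      ∀ x : K, ∑ w ∈ S, w.ord x = ∑ v ∈ T, v.ord (Algebra.norm L x) := by
  classical
  choose fib hfib using fun v : Place k L => Place.exists_fibre K v
  refine ⟨T.biUnion fib, fun w => by simp [hfib], fun x => ?_⟩
  rw [Finset.sum_biUnion]
  · exact Finset.sum_congr rfl fun v _ => sum_fibre0 (hfib v) x
  · intro v _ v' _ hne
    refine Finset.disjoint_left.mpr fun w h1 h2 => hne ?_
    obtain ⟨e, he⟩ := (hfib v w).mp h1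
    obtain ⟨e', he'⟩ := (hfib v' w).mp h2
    exact he.unique_under he'

/-- the product formula passes to Galois extensions -/
theorem ff2_prod_up0 (hL : ∀ y : L, {v : Place k L | v.ord y ≠ 0}.Finite ∧
      ∀ T : Finset (Place k L), (∀ v, v.ord y ≠ 0 → v ∈ T) → ∑ v ∈ T, v.ord y = 0)
    (x : K) (S : Finset (Place k K)) (hS : ∀ w, w.ord x ≠ 0 → w ∈ S) :
    ∑ w ∈ S, w.ord x = 0 := by
  classical
  choose und e hund using fun w : Place k K => Place.exists_under (L := L) w
  obtain ⟨S', h1, h2⟩ := ff2_sum0 K (S.image und ∪ (hL (Algebra.norm L x)).1.toFinset)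
  have h3 : S ⊆ S' := fun w hw => (h1 w).mpr
    ⟨und w, Finset.mem_union_left _ (Finset.mem_image_of_mem _ hw), e w, hund w⟩
  rw [Finset.sum_subset h3 fun w _ hw => by_contra fun h => hw (hS w h), h2]
  exact (hL _).2 _ fun v hv => Finset.mem_union_right _ (by simpa using hv)

/-- the product formula passes to subfields -/
theorem ff2_prod_down0 (hK : ∀ (x : K) (S : Finset (Place k K)), (∀ w, w.ord x ≠ 0 → w ∈ S) →
      ∑ w ∈ S, w.ord x = 0) (y : L) (T : Finset (Place k L)) (hT : ∀ v, v.ord y ≠ 0 → v ∈ T) :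
    ∑ v ∈ T, v.ord y = 0 := by
  obtain ⟨S, h1, h2⟩ := ff2_sum0 K T
  have h3 := hK (algebraMap L K y) S fun w hw => by
    obtain ⟨v, e, hv⟩ := Place.exists_under (L := L) w
    refine (h1 w).mpr ⟨v, hT v fun h => hw ?_, e, hv⟩
    rw [hv.2, h, mul_zero]
  rw [h2, Algebra.norm_algebraMap] at h3
  simp only [Place.ord_pow, ← Finset.mul_sum] at h3
  exact (mul_eq_zero.mp h3).resolve_left (by exact_mod_cast Module.finrank_pos.ne')

end galois

variable [IsFF k K]

/-- finite support and the product formula -/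
theorem ff2_main0 : (∀ x : K, {v : Place k K | v.ord x ≠ 0}.Finite) ∧
    ∀ (x : K) (S : Finset (Place k K)), (∀ w, w.ord x ≠ 0 → w ∈ S) → ∑ w ∈ S, w.ord x = 0 := by
  obtain ⟨t, ht, -⟩ := IsFF.ex (k := k) (K := K)
  obtain ⟨_, h1, h2, -, h3⟩ := ff2_alg ht
  have h4 := sep0 k (RatFunc k) K
  obtain ⟨N, _, _, _, _, h5, h6, h7, h8, h9⟩ := ff2_closure k (RatFunc k) K
  have h10 : IsFF k (RatFunc k) := (IsFF.of_sub (k := k) (K := K) (RatFunc k)).1
  have h11 : FiniteDimensional K N := Module.Finite.of_restrictScalars_finite (RatFunc k) K N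
  have h12 : IsGalois K N := IsGalois.tower_top_of_isGalois (RatFunc k) K N
  exact ⟨ff2_fin_down (K := N) (ff2_fin_up fun y => (rat_prod y).1),
    ff2_prod_down0 (K := N) (ff2_prod_up0 rat_prod)⟩

theorem pole0 {x : K} (h : ∀ v : Place k K, v.Ge x 0) : ∃ c, x = algebraMap k K c := by
  by_contra hc
  have ht : Transcendental k x := fun ha => by
    obtain ⟨c, hc'⟩ := minpoly.mem_range_of_degree_eq_one k x
      (IsAlgClosed.degree_eq_one_of_irreducible k (minpoly.irreducible ha.isIntegral))
    exact hc ⟨c, hc'.symm⟩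
  have hx : x ≠ 0 := fun h0 => hc ⟨0, by simp [h0]⟩
  obtain ⟨_, h1, h2, h3, -⟩ := ff2_alg ht
  obtain ⟨v, hv, -⟩ := rat_place_inf (k := k)
  obtain ⟨V, hV⟩ := exists_qval K v
  obtain ⟨w, e, hw, -⟩ := hV.exists_place K
  have h4 := hw.2 RatFunc.X
  have h5 := hv 0
  rw [map_zero, sub_zero] at h5
  rw [h3, h5] at h4
  have h6 := (h w).le hx
  have h7 := hw.1
  omega

theorem finrank_le0 (n : ℕ) (m : Place k K →₀ ℕ) (hm : (m.sum fun _ a => a) ≤ n)
    (U : Submodule k K) [FiniteDimensional k U]
    (h : ∀ f ∈ U, ∀ v : Place k K, v.Ge f (-(m v : ℤ))) :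
    finrank k U ≤ n + 1 := by
  classical
  have one : ∀ f : K, finrank k (Submodule.span k {f}) ≤ 1 := fun f => by
    simpa using finrank_span_le_card (R := k) ({f} : Set K)
  have zero : ∀ (U : Submodule k K), (∀ f ∈ U, ∀ v : Place k K, v.Ge f 0) → finrank k U ≤ 1 := by
    intro U h
    refine le_trans (Submodule.finrank_mono (t := Submodule.span k {(1 : K)}) fun f hf => ?_)
      (one 1)
    obtain ⟨c, rfl⟩ := pole0 (h f hf)
    exact Submodule.mem_span_singleton.mpr ⟨c, by rw [Algebra.smul_def, mul_one]⟩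
  induction n generalizing m U with
  | zero =>
    refine zero U fun f hf v => ?_
    have h0 : m v = 0 := by
      by_contra h0
      have := Finset.single_le_sum (f := fun a => m a) (fun _ _ => Nat.zero_le _)
        (Finsupp.mem_support_iff.mpr h0)
      have h2 : ∑ a ∈ m.support, m a ≤ 0 := hm
      omega
    simpa [h0] using h f hf v
  | succ n ih =>
    by_cases h0 : m = 0
    · refine (zero U fun f hf v => ?_).trans (by omega)
      simpa [h0] using h f hf v
    obtain ⟨v, hv⟩ := Finsupp.ne_iff.mp h0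
    have hv' : m v ≠ 0 := hv
    have hle : Finsupp.single v 1 ≤ m := Finsupp.single_le_iff.mpr (by omega)
    obtain ⟨m', rfl⟩ := exists_add_of_le hle
    have hm' : (m'.sum fun _ a => a) ≤ n := by
      rw [Finsupp.sum_add_index' (fun _ => rfl) (fun _ _ _ => rfl),
        Finsupp.sum_single_index rfl] at hm
      omega
    have h1 : finrank k (U ⊓ north_sub v (-(m' v : ℤ)) : Submodule k K) ≤ n + 1 := by
      refine ih m' hm' _ fun f hf w => ?_
      by_cases hw : w = v
      · subst hw
        exact hf.2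
      · simpa [Finsupp.single_eq_of_ne hw] using h f hf.1 w
    have hU : ∀ f ∈ U, v.Ge f (-(m' v : ℤ) - 1) := fun f hf => by
      have := h f hf v
      rw [Finsupp.add_apply, Finsupp.single_eq_same] at this
      refine this.mono (le_of_eq ?_)
      push_cast
      ring
    by_cases h2 : U ≤ north_sub v (-(m' v : ℤ))
    · rw [inf_eq_left.mpr h2] at h1
      omega
    obtain ⟨g, hg, hg'⟩ := SetLike.not_le_iff_exists.mp h2
    obtain ⟨g0, hg1⟩ := Place.not_ge_iff.mp hg'
    have hg2 := (hU g hg).le g0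
    have h3 : U ≤ (U ⊓ north_sub v (-(m' v : ℤ))) ⊔ Submodule.span k {g} := by
      intro f hf
      have h4 : v.Ge (f / g) 0 := by
        rw [div_eq_mul_inv, Place.ge_mul_iff (inv_ne_zero g0), Place.ord_inv]
        exact (hU f hf).mono (by omega)
      obtain ⟨c, hc⟩ := v.exists_res h4
      have h5 : v.Ge (f - c • g) (-(m' v : ℤ)) := by
        have := hc.mul (v.ge_ord g)
        rw [sub_mul, div_mul_cancel₀ _ g0, ← Algebra.smul_def] at this
        exact this.mono (by omega)
      have h6 : f = (f - c • g) + c • g := by ring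
      rw [h6]
      exact Submodule.add_mem_sup ⟨U.sub_mem hf (U.smul_mem c hg), h5⟩
        (Submodule.smul_mem _ c (Submodule.mem_span_singleton_self g))
    have h7 := Submodule.finrank_mono h3
    have h8 := Submodule.finrank_add_le_finrank_add_finrank
      (U ⊓ north_sub v (-(m' v : ℤ))) (Submodule.span k {g})
    have h9 := one g
    omega

end Pool.Agent.Lib.MP_07b2d0_nt.W
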