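import Pool.Agent.Lib.MP_07b2d0_nt.W.WPl
import Pool.Agent.Lib.MP_07b2d0_nt.W.WKV

set_option autoImplicit false
set_option linter.unusedSectionVars false
set_option linter.unusedVariables false

namespace Pool.Agent.Lib.MP_07b2d0_nt.W

open Pool.Agent.Lib.MP_6adaea_nt 
open scoped Classical

noncomputable section

variable {k K Ω : Type} (F : Type) [Field k] [Field K] [Field Ω] [Field F] [Algebra k K]
  [Algebra k Ω] [Algebra k F] [Algebra K F] [Algebra Ω F] [IsScalarTower k K F]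
  [IsScalarTower k Ω F]

/-- the subalgebra generated by `A ⊆ Ω` and `B ⊆ K` -/
def TT (A : Subalgebra k Ω) (B : Subalgebra k K) : Subalgebra k F :=
  A.map (IsScalarTower.toAlgHom k Ω F) ⊔ B.map (IsScalarTower.toAlgHom k K F)

variable (k K Ω) in
/-- `F` is the constant field extension of `K` from `k` to `Ω` -/
class BC : Prop where
  li : ∀ {ι : Type} (b : ι → K), LinearIndependent k b →
    LinearIndependent Ω fun i => algebraMap K F (b i)
  frac : ∀ f : F, ∃ y ∈ TT F (⊤ : Subalgebra k Ω) (⊤ : Subalgebra k K),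
    ∃ z ∈ TT F (⊤ : Subalgebra k Ω) (⊤ : Subalgebra k K), z ≠ 0 ∧ f = y / z

variable {F} {A A' : Subalgebra k Ω} {B B' : Subalgebra k K} {y : F}

theorem TT_mono (hA : A ≤ A') (hB : B ≤ B') : TT F A B ≤ TT F A' B' :=
  sup_le_sup (Subalgebra.map_mono hA) (Subalgebra.map_mono hB)

theorem left_mem_TT (B : Subalgebra k K) {c : Ω} (h : c ∈ A) : algebraMap Ω F c ∈ TT F A B :=
  (le_sup_left : _ ≤ TT F A B) ⟨c, h, rfl⟩

theorem right_mem_TT (A : Subalgebra k Ω) {a : K} (h : a ∈ B) : algebraMap K F a ∈ TT F A B :=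
  (le_sup_right : _ ≤ TT F A B) ⟨a, h, rfl⟩

variable (F A B) in
/-- the multiplication map on the tensor product -/
def wbc_P : TensorProduct k A B →ₐ[k] F :=
  Algebra.TensorProduct.productMap ((IsScalarTower.toAlgHom k Ω F).comp A.val)
    ((IsScalarTower.toAlgHom k K F).comp B.val)

theorem wbc_tmul (c : A) (a : B) :
    wbc_P F A B (c ⊗ₜ a) = algebraMap Ω F c * algebraMap K F a := rfl

theorem wbc_mem : y ∈ TT F A B ↔ ∃ t, wbc_P F A B t = y := by
  rw [← AlgHom.mem_range, wbc_P, Algebra.TensorProduct.productMap_range, AlgHom.range_comp,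
    AlgHom.range_comp, Subalgebra.range_val, Subalgebra.range_val, TT]

theorem wbc_rep (t : TensorProduct k A B) : ∃ (n : ℕ) (c : Fin n → A) (a : Fin n → B),
    (LinearIndependent k fun i => (a i : K)) ∧ t = ∑ i, c i ⊗ₜ a i := by
  obtain ⟨b, rfl⟩ := TensorProduct.eq_repr_basis_right (Module.Free.chooseBasis k B) t
  refine ⟨_, fun i => b (b.support.equivFin.symm i),
    fun i => Module.Free.chooseBasis k B (b.support.equivFin.symm i), ?_, ?_⟩
  · exact ((Module.Free.chooseBasis k B).linearIndependent.comp _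
      (Subtype.val_injective.comp b.support.equivFin.symm.injective)).map' B.val.toLinearMap
        (LinearMap.ker_eq_bot.2 Subtype.val_injective)
  · rw [Finsupp.sum, ← Finset.sum_coe_sort]
    exact (b.support.equivFin.symm.sum_comp _).symm

theorem wbc_li (h : y ∈ TT F A B) : ∃ (n : ℕ) (c : Fin n → Ω) (a : Fin n → K), (∀ i, c i ∈ A) ∧
    (∀ i, a i ∈ B) ∧ LinearIndependent k a ∧
      y = ∑ i, algebraMap Ω F (c i) * algebraMap K F (a i) := by
  obtain ⟨t, rfl⟩ := wbc_mem.1 h
  obtain ⟨n, c, a, h1, rfl⟩ := wbc_rep t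
  exact ⟨n, fun i => c i, fun i => a i, fun i => (c i).2, fun i => (a i).2, h1, map_sum _ _ _⟩

theorem TT_le {R : Subring F} (hA : ∀ c ∈ A, algebraMap Ω F c ∈ R)
    (hB : ∀ a ∈ B, algebraMap K F a ∈ R) (h : y ∈ TT F A B) : y ∈ R := by
  obtain ⟨n, c, a, h1, h2, -, rfl⟩ := wbc_li h
  exact sum_mem fun i _ => mul_mem (hA _ (h1 i)) (hB _ (h2 i))

theorem mem_TT : y ∈ TT F A B ↔ ∃ (n : ℕ) (c : Fin n → Ω) (a : Fin n → K), (∀ i, c i ∈ A) ∧
    (∀ i, a i ∈ B) ∧ y = ∑ i, algebraMap Ω F (c i) * algebraMap K F (a i) := by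
  refine ⟨fun h => ?_, ?_⟩
  · obtain ⟨n, c, a, h1, h2, -, h3⟩ := wbc_li h
    exact ⟨n, c, a, h1, h2, h3⟩
  · rintro ⟨n, c, a, h1, h2, rfl⟩
    exact sum_mem fun i _ => mul_mem (left_mem_TT B (h1 i)) (right_mem_TT A (h2 i))

theorem mem_TT_li (h : y ∈ TT F A B) : ∃ (n : ℕ) (c : Fin n → Ω) (a : Fin n → K), (∀ i, c i ∈ A) ∧
    (∀ i, a i ∈ B) ∧ LinearIndependent k a ∧
      y = ∑ i, algebraMap Ω F (c i) * algebraMap K F (a i) := wbc_li h

variable [BC k K Ω F]

theorem wbc_inj : Function.Injective (wbc_P F A B) := by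
  refine (injective_iff_map_eq_zero _).2 fun t ht => ?_
  obtain ⟨n, c, a, h1, rfl⟩ := wbc_rep t
  have h2 := Fintype.linearIndependent_iff.1 (BC.li (Ω := Ω) (F := F) _ h1) (fun i => c i) (by
    rw [map_sum] at ht
    simpa only [Algebra.smul_def, wbc_tmul] using ht)
  exact Finset.sum_eq_zero fun i _ => by
    rw [show c i = 0 from Subtype.ext (h2 i), TensorProduct.zero_tmul]

variable (F) in
/-- `TT F A B` is the tensor product -/
theorem bil {C : Type} [CommRing C] [Algebra k C] (α : A →ₐ[k] C) (β : B →ₐ[k] C) :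
    ∃ φ : F → C, (∀ y ∈ TT F A B, ∀ z ∈ TT F A B, φ (y + z) = φ y + φ z ∧ φ (y * z) = φ y * φ z) ∧
      (∀ c : A, φ (algebraMap Ω F c) = α c) ∧ ∀ a : B, φ (algebraMap K F a) = β a := by
  have h : ∀ t, Function.invFun (wbc_P F A B) (wbc_P F A B t) = t :=
    Function.leftInverse_invFun wbc_inj
  refine ⟨fun y => Algebra.TensorProduct.productMap α β (Function.invFun (wbc_P F A B) y),
    fun y hy z hz => ?_, fun c => ?_, fun a => ?_⟩
  · obtain ⟨s, rfl⟩ := wbc_mem.1 hy
    obtain ⟨t, rfl⟩ := wbc_mem.1 hz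
    simp only [← map_add, ← map_mul, h, and_self]
  · rw [show algebraMap Ω F c = wbc_P F A B (c ⊗ₜ 1) by simp [wbc_tmul]]
    simp only [h, Algebra.TensorProduct.productMap_apply_tmul, map_one, mul_one]
  · rw [show algebraMap K F a = wbc_P F A B (1 ⊗ₜ a) by simp [wbc_tmul]]
    simp only [h, Algebra.TensorProduct.productMap_apply_tmul, map_one, one_mul]

theorem const_of_eq {a : K} {c : Ω} (h : algebraMap K F a = algebraMap Ω F c) :
    ∃ d : k, a = algebraMap k K d := by
  by_contra hc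
  have h1 : LinearIndependent k ![(1 : K), a] := (LinearIndependent.pair_iff' one_ne_zero).2
    fun d hd => hc ⟨d, by rw [← hd, Algebra.algebraMap_eq_smul_one]⟩
  have h2 := Fintype.linearIndependent_iff.1 (BC.li (Ω := Ω) (F := F) _ h1) ![c, -1]
    (by simp [Fin.sum_univ_two, h, Algebra.smul_def]) 1
  simp at h2

variable (Ω F) in
theorem bc_trans {t : K} (h : Transcendental k t) : Transcendental Ω (algebraMap K F t) := by
  have h1 := (Polynomial.basisMonomials k).linearIndependent.map' (Polynomial.aeval t).toLinearMap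
    (LinearMap.ker_eq_bot.2 (transcendental_iff_injective.1 h))
  refine transcendental_iff.2 fun p hp => Polynomial.ext fun n => ?_
  by_cases hn : n ∈ p.support
  · refine linearIndependent_iff'.1 (BC.li (Ω := Ω) (F := F) _ h1) p.support p.coeff ?_ n hn
    rw [Polynomial.aeval_def, Polynomial.eval₂_eq_sum, Polynomial.sum_def] at hp
    simpa [Algebra.smul_def] using hp
  · exact Polynomial.notMem_support_iff.1 hn

variable (k K Ω) in
include k in
/-- a subfield that contains `Ω` and `K` is everything -/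
theorem bc_top (R : Subfield F) (h1 : ∀ c, algebraMap Ω F c ∈ R) (h2 : ∀ a, algebraMap K F a ∈ R)
    (f : F) : f ∈ R := by
  obtain ⟨y, hy, z, hz, -, rfl⟩ := BC.frac (k := k) (K := K) (Ω := Ω) f
  exact div_mem (TT_le (R := R.toSubring) (fun c _ => h1 c) (fun a _ => h2 a) hy)
    (TT_le (R := R.toSubring) (fun c _ => h1 c) (fun a _ => h2 a) hz)

variable (k K Ω) in
include k in
theorem bc_ext {E : Type} [Field E] {φ ψ : F →+* E}
    (h1 : ∀ c, φ (algebraMap Ω F c) = ψ (algebraMap Ω F c))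
    (h2 : ∀ a, φ (algebraMap K F a) = ψ (algebraMap K F a)) : φ = ψ :=
  RingHom.ext (bc_top k K Ω (φ.eqLocusField ψ) h1 h2)

end

end Pool.Agent.Lib.MP_07b2d0_nt.W
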