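import Pool.Agent.Lib.MP_07b2d0_nt.W.WBC

set_option autoImplicit false
set_option linter.unusedSectionVars false
set_option linter.unusedVariables false

namespace Pool.Agent.Lib.MP_07b2d0_nt.W

open Pool.Agent.Lib.MP_6adaea_nt 
open scoped Classical

noncomputable section

variable {k K Ω F : Type} [Field k] [Field K] [Field Ω] [Field F] [Algebra k K]
  [Algebra k Ω] [Algebra k F] [Algebra K F] [Algebra Ω F] [IsScalarTower k K F]
  [IsScalarTower k Ω F] [BC k K Ω F]

variable (k K Ω F) in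
theorem bc_isFF [IsFF k K] : IsFF Ω F := by
  obtain ⟨t, ht, hf⟩ := IsFF.ex (k := k) (K := K)
  refine ⟨_, bc_trans Ω F ht, ?_⟩
  set M := IntermediateField.adjoin Ω {algebraMap K F t}
  have h1 : IntermediateField.adjoin k {t} ≤
      (M.restrictScalars k).comap (IsScalarTower.toAlgHom k K F) :=
    IntermediateField.adjoin_simple_le_iff.2 (IntermediateField.mem_adjoin_simple_self Ω _)
  let b := Module.finBasis (IntermediateField.adjoin k {t}) K
  let S := Set.range fun i => algebraMap K F (b i)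
  have h2 : FiniteDimensional M (IntermediateField.adjoin M S) :=
    IntermediateField.finiteDimensional_adjoin (by
      rintro _ ⟨i, rfl⟩
      exact (IsIntegral.of_finite (IntermediateField.adjoin k {t}) (b i)).map_of_comp_eq
        (((algebraMap K F).comp (algebraMap (IntermediateField.adjoin k {t}) K)).codRestrict M
          fun x => h1 x.2) (algebraMap K F) rfl)
  have h3 : IntermediateField.adjoin M S = ⊤ := eq_top_iff.2 fun f _ =>
    bc_top k K Ω (IntermediateField.adjoin M S).toSubfield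
      (fun c => IntermediateField.algebraMap_mem _ (algebraMap Ω M c)) (fun a => by
        rw [← b.sum_repr a, map_sum]
        refine sum_mem fun i _ => ?_
        rw [Algebra.smul_def, map_mul]
        exact mul_mem (IntermediateField.algebraMap_mem _ (⟨_, h1 (b.repr a i).2⟩ : M))
          (IntermediateField.subset_adjoin _ _ ⟨i, rfl⟩)) f
  rw [h3] at h2
  exact IntermediateField.topEquiv.toLinearEquiv.finiteDimensional

variable (K F) in
theorem wbca_hom (σ : Ω ≃ₐ[k] Ω) : ∃ φ : F →+* F,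
    (∀ c, φ (algebraMap Ω F c) = algebraMap Ω F (σ c)) ∧
      ∀ a, φ (algebraMap K F a) = algebraMap K F a := by
  obtain ⟨φ, h1, h2, h3⟩ := bil F (A := ⊤) (B := ⊤)
    ((IsScalarTower.toAlgHom k Ω F).comp (σ.toAlgHom.comp (Subalgebra.val _)))
    ((IsScalarTower.toAlgHom k K F).comp (Subalgebra.val _))
  replace h2 : ∀ c, φ (algebraMap Ω F c) = algebraMap Ω F (σ c) := fun c => h2 ⟨c, trivial⟩
  replace h3 : ∀ a, φ (algebraMap K F a) = algebraMap K F a := fun a => h3 ⟨a, trivial⟩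
  let g : TT F (⊤ : Subalgebra k Ω) (⊤ : Subalgebra k K) →+* F :=
    { toFun y := φ y
      map_one' := by simpa using h3 1
      map_zero' := by simpa using h3 0
      map_mul' y z := (h1 _ y.2 _ z.2).2
      map_add' y z := (h1 _ y.2 _ z.2).1 }
  have hg : Function.Injective g := (injective_iff_map_eq_zero g).2 fun y hy => by
    obtain ⟨n, c, a, hc, ha, hl, e⟩ := mem_TT_li y.2
    have e1 : y = ∑ i, ⟨_, left_mem_TT ⊤ (hc i)⟩ * ⟨_, right_mem_TT ⊤ (ha i)⟩ :=
      Subtype.ext (by rw [e, AddSubmonoidClass.coe_finsetSum]; rfl)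
    have h4 := Fintype.linearIndependent_iff.1 (BC.li (Ω := Ω) (F := F) a hl) (fun i => σ (c i)) (by
      rw [← hy, e1, map_sum]
      exact Finset.sum_congr rfl fun i _ => by
        rw [map_mul, Algebra.smul_def]
        exact (congrArg₂ _ (h2 _) (h3 _)).symm)
    simp only [map_eq_zero] at h4
    exact Subtype.ext (by simp [e, h4])
  have := IsFractionRing.of_field (TT F (⊤ : Subalgebra k Ω) (⊤ : Subalgebra k K)) F fun f => by
    obtain ⟨y, hy, z, hz, -, e⟩ := BC.frac (k := k) (K := K) (Ω := Ω) f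
    exact ⟨⟨y, hy⟩, ⟨z, hz⟩, e⟩
  exact ⟨IsFractionRing.lift hg,
    fun c => (IsFractionRing.lift_algebraMap hg ⟨_, left_mem_TT ⊤ trivial⟩).trans (h2 c),
    fun a => (IsFractionRing.lift_algebraMap hg ⟨_, right_mem_TT ⊤ trivial⟩).trans (h3 a)⟩

variable (K F) in
theorem exists_ext (σ : Ω ≃ₐ[k] Ω) : ∃ s : SA Ω F, (∀ c, s.a c = σ c) ∧
    ∀ a : K, s.γ (algebraMap K F a) = algebraMap K F a := by
  obtain ⟨φ, h1, h2⟩ := wbca_hom K F σ
  obtain ⟨ψ, h3, h4⟩ := wbca_hom K F σ.symm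
  exact ⟨⟨RingEquiv.ofRingHom φ ψ
    (bc_ext k K Ω (fun c => by simp [h1, h3]) fun a => by simp [h2, h4])
    (bc_ext k K Ω (fun c => by simp [h1, h3]) fun a => by simp [h2, h4]), σ, h1⟩,
    fun _ => rfl, h2⟩

variable (K F) in
/-- the extension of an automorphism of the constants that fixes `K` -/
def ext (σ : Ω ≃ₐ[k] Ω) : SA Ω F := (exists_ext K F σ).choose

theorem ext_a (σ : Ω ≃ₐ[k] Ω) (c : Ω) : (ext K F σ).a c = σ c := (exists_ext K F σ).choose_spec.1 c

theorem ext_K (σ : Ω ≃ₐ[k] Ω) (a : K) : (ext K F σ).γ (algebraMap K F a) = algebraMap K F a :=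
  (exists_ext K F σ).choose_spec.2 a

theorem ext_Ω (σ : Ω ≃ₐ[k] Ω) (c : Ω) :
    (ext K F σ).γ (algebraMap Ω F c) = algebraMap Ω F (σ c) := by rw [SA.h, ext_a]

theorem ext_mul (σ τ : Ω ≃ₐ[k] Ω) (f : F) :
    (ext K F (σ * τ)).γ f = (ext K F σ).γ ((ext K F τ).γ f) :=
  RingHom.congr_fun (bc_ext k K Ω (φ := (ext K F (σ * τ)).γ)
    (ψ := (ext K F σ).γ.toRingHom.comp (ext K F τ).γ) (fun c => by simp [ext_Ω])
    fun a => by simp [ext_K]) f

theorem ext_one (f : F) : (ext K F (1 : Ω ≃ₐ[k] Ω)).γ f = f :=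
  RingHom.congr_fun (bc_ext k K Ω (φ := (ext K F (1 : Ω ≃ₐ[k] Ω)).γ) (ψ := RingHom.id F)
    (fun c => by simp [ext_Ω]) fun a => by simp [ext_K]) f

theorem ext_pl_mul (σ τ : Ω ≃ₐ[k] Ω) (Q : Place Ω F) :
    (ext K F (σ * τ)).pl Q = (ext K F σ).pl ((ext K F τ).pl Q) := by
  refine Place.ext (funext fun x => ?_)
  obtain ⟨y, rfl⟩ := (ext K F (σ * τ)).γ.surjective x
  rw [SA.pl_ord, ext_mul, SA.pl_ord, SA.pl_ord]

theorem ext_dm_mul (σ τ : Ω ≃ₐ[k] Ω) (D : Dv Ω F) :
    (ext K F (σ * τ)).dm D = (ext K F σ).dm ((ext K F τ).dm D) := by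
  ext v
  obtain ⟨w, rfl⟩ := (ext K F (σ * τ)).pl.surjective v
  rw [SA.dm_pl, ext_pl_mul, SA.dm_pl, SA.dm_pl]

theorem ext_dm_one (D : Dv Ω F) : (ext K F (1 : Ω ≃ₐ[k] Ω)).dm D = D := by
  ext v
  exact congrArg D (Place.ext (funext fun x => congrArg v.ord (ext_one x)))

end

end Pool.Agent.Lib.MP_07b2d0_nt.W
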