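import Pool.Agent.Lib.MP_07b2d0_nt.W.WBC

set_option autoImplicit false
set_option linter.unusedSectionVars false
set_option linter.unusedVariables false

namespace Pool.Agent.Lib.MP_07b2d0_nt.W

open Pool.Agent.Lib.MP_6adaea_nt 
open scoped Classical

noncomputable section

open TensorProduct in
theorem wbcx_norm {k K Ω : Type} [Field k] [Field K] [Field Ω] [Algebra k K] [Algebra k Ω]
    (U : KV k Ω) {x : Ω ⊗[k] K} (hx : x ≠ 0) : ∃ (c : Ω) (y : U.sub ⊗[k] K), c ≠ 0 ∧
      x = c • Algebra.TensorProduct.map U.sub.val (AlgHom.id k K) y ∧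
      Algebra.TensorProduct.lift ((Algebra.ofId k K).comp U.rsH) (AlgHom.id k K)
        (fun _ _ => .all _ _) y ≠ 0 := by
  let b := Module.Free.chooseBasis k K
  let B := Algebra.TensorProduct.basis Ω b
  obtain ⟨j, hj, h0, h⟩ := U.exists_max (B.repr x).support (B.repr x) <| by
    obtain ⟨i, hi⟩ := Finsupp.support_nonempty_iff.2 (B.repr.map_ne_zero_iff.2 hx)
    exact ⟨i, hi, Finsupp.mem_support_iff.1 hi⟩
  refine ⟨_, ∑ i ∈ (B.repr x).support.attach, (⟨_, h i i.2⟩ : U.sub) ⊗ₜ b i, h0, ?_, fun e => ?_⟩
  · conv_lhs => rw [← B.linearCombination_repr x, Finsupp.linearCombination_apply, Finsupp.sum,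
      ← Finset.sum_attach]
    rw [map_sum, Finset.smul_sum]
    refine Finset.sum_congr rfl fun i _ => ?_
    simp [B, smul_tmul', mul_div_cancel₀ _ h0]
  · rw [map_sum] at e
    have := linearIndependent_iff'.1 (b.linearIndependent.comp
      (Subtype.val : (B.repr x).support → _) Subtype.val_injective) _
        (fun i => U.rsH ⟨_, h i i.2⟩) (by simpa [Algebra.smul_def] using e) ⟨j, hj⟩
        (Finset.mem_attach _ _)
    exact one_ne_zero ((U.rs_one.symm.trans (congrArg U.rs (div_self h0).symm)).trans this)

/-- `Ω ⊗[k] K` is a domain: normalise the coordinates by a valuation ring and reduce -/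
theorem tensor_isDomain (k K Ω : Type) [Field k] [Field K] [Field Ω] [Algebra k K] [Algebra k Ω]
    [IsAlgClosed k] : IsDomain (TensorProduct k Ω K) := by
  obtain ⟨U⟩ := exists_kv k Ω
  have hi : Function.Injective (Algebra.TensorProduct.map U.sub.val (AlgHom.id k K)) :=
    Module.Flat.rTensor_preserves_injective_linearMap (M := K) U.sub.val.toLinearMap
      Subtype.val_injective
  have : NoZeroDivisors (TensorProduct k Ω K) := ⟨fun {x y} e => by
    by_contra hn
    obtain ⟨c, x, hc, rfl, hx⟩ := wbcx_norm U (not_or.1 hn).1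
    obtain ⟨d, y, hd, rfl, hy⟩ := wbcx_norm U (not_or.1 hn).2
    rw [smul_mul_smul_comm, ← map_mul, smul_eq_zero_iff_right (mul_ne_zero hc hd),
      map_eq_zero_iff _ hi] at e
    exact mul_ne_zero hx hy (by rw [← map_mul, e, map_zero])⟩
  exact NoZeroDivisors.to_isDomain _

/-- the fraction field of the tensor product -/
theorem exists_bc (k K Ω : Type) [Field k] [Field K] [Field Ω] [Algebra k K] [Algebra k Ω]
    [IsAlgClosed k] : ∃ (F : Type) (_ : Field F) (_ : Algebra k F) (_ : Algebra K F)
      (_ : Algebra Ω F) (_ : IsScalarTower k K F) (_ : IsScalarTower k Ω F), BC k K Ω F := by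
  have := tensor_isDomain k K Ω
  let T := TensorProduct k Ω K
  let F := FractionRing T
  let _ : Algebra K F :=
    ((algebraMap T F).comp (Algebra.TensorProduct.includeRight (R := k) (A := Ω)).toRingHom).toAlgebra
  have e (a : K) : algebraMap K F a = algebraMap T F (1 ⊗ₜ a) := rfl
  have : IsScalarTower k K F := .of_algebraMap_eq fun c => by
    rw [e, IsScalarTower.algebraMap_apply k T F, Algebra.TensorProduct.algebraMap_apply']
  have m (t : T) : algebraMap T F t ∈ TT F (⊤ : Subalgebra k Ω) (⊤ : Subalgebra k K) := by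
    induction t using TensorProduct.induction_on with
    | zero => rw [map_zero]; exact zero_mem _
    | add x y hx hy => rw [map_add]; exact add_mem hx hy
    | tmul c a =>
      have := mul_mem (left_mem_TT (F := F) (⊤ : Subalgebra k K) (Algebra.mem_top (R := k) (x := c)))
        (right_mem_TT (F := F) (⊤ : Subalgebra k Ω) (Algebra.mem_top (R := k) (x := a)))
      rwa [e, IsScalarTower.algebraMap_apply Ω T F, ← map_mul, Algebra.TensorProduct.algebraMap_apply,
        Algebra.TensorProduct.tmul_mul_tmul, mul_one, one_mul] at this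
  refine ⟨F, inferInstance, inferInstance, inferInstance, inferInstance, inferInstance,
    inferInstance, fun b hb => ?_, fun f => ?_⟩
  · exact (Module.Flat.linearIndependent_one_tmul (S := Ω) hb).map'
      (IsScalarTower.toAlgHom Ω T F).toLinearMap
      (LinearMap.ker_eq_bot.2 (IsFractionRing.injective T F))
  · obtain ⟨y, z, hz, rfl⟩ := IsFractionRing.div_surjective T f
    exact ⟨_, m y, _, m z, IsFractionRing.to_map_ne_zero_of_mem_nonZeroDivisors hz, rfl⟩

end

end Pool.Agent.Lib.MP_07b2d0_nt.W
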