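import Pool.Agent.Lib.MP_07b2d0_nt.W.WDef

set_option autoImplicit false
set_option linter.unusedSectionVars false
set_option linter.unusedVariables false

namespace Pool.Agent.Lib.MP_07b2d0_nt.W

open Pool.Agent.Lib.MP_6adaea_nt 
open scoped Classical

noncomputable section

variable {k K : Type} [Field k] [Field K] [Algebra k K] [IsAlgClosed k] [IsFF k K]
  {v : Place k K} {f g : K} {D D' : Dv k K}

/-- the value of a function at a place (junk value `0` at a pole) -/
def val (v : Place k K) (f : K) : k := if h : v.Ge f 0 then (v.exists_res h).choose else 0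

theorem val_spec (h : v.Ge f 0) : v.Ge (f - algebraMap k K (val v f)) 1 := by
  rw [val, dif_pos h]
  exact (v.exists_res h).choose_spec

theorem val_eq {c : k} (h : v.Ge (f - algebraMap k K c) 1) : val v f = c := by
  have h0 : v.Ge f 0 := by simpa using (h.mono zero_le_one).add (v.ge_const c)
  have := h.sub (val_spec h0)
  rw [sub_sub_sub_cancel_left, ← map_sub] at this
  exact sub_eq_zero.1 (Place.const_eq_zero_of_ge this)

theorem val_const (v : Place k K) (c : k) : val v (algebraMap k K c) = c := val_eq (by simp)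

theorem val_zero (v : Place k K) : val v 0 = 0 := val_eq (by simp)

theorem val_one (v : Place k K) : val v 1 = 1 := val_eq (by simp)

theorem val_add (hf : v.Ge f 0) (hg : v.Ge g 0) : val v (f + g) = val v f + val v g :=
  val_eq (by rw [map_add, add_sub_add_comm]; exact (val_spec hf).add (val_spec hg))

theorem val_sub (hf : v.Ge f 0) (hg : v.Ge g 0) : val v (f - g) = val v f - val v g :=
  val_eq (by rw [map_sub, sub_sub_sub_comm]; exact (val_spec hf).sub (val_spec hg))

theorem val_neg (hf : v.Ge f 0) : val v (-f) = -val v f := by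
  simpa [val_zero] using val_sub (v.ge_zero 0) hf

theorem val_mul (hf : v.Ge f 0) (hg : v.Ge g 0) : val v (f * g) = val v f * val v g := by
  refine val_eq ?_
  have := ((val_spec hf).mul hg).add (((v.ge_const (val v f)).mul (val_spec hg)).mono (by simp))
  rw [add_zero] at this
  rw [map_mul]
  convert this using 1
  ring

theorem ge_pow_zero (hf : v.Ge f 0) (n : ℕ) : v.Ge (f ^ n) 0 := by simpa using hf.pow n

theorem ge_mul_zero (hf : v.Ge f 0) (hg : v.Ge g 0) : v.Ge (f * g) 0 := by simpa using hf.mul hg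

theorem val_pow (hf : v.Ge f 0) (n : ℕ) : val v (f ^ n) = val v f ^ n := by
  induction n with
  | zero => simp [val_one]
  | succ n ih => rw [pow_succ, val_mul (ge_pow_zero hf n) hf, ih, pow_succ]

theorem val_eq_zero_iff (hf : v.Ge f 0) : val v f = 0 ↔ v.Ge f 1 :=
  ⟨fun h => by simpa [h] using val_spec hf, fun h => val_eq (by simpa using h)⟩

theorem val_ne_zero (h0 : f ≠ 0) (h : v.ord f = 0) : val v f ≠ 0 := fun h1 => by
  have := ((val_eq_zero_iff (Or.inr h.ge)).1 h1).le h0
  omega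

theorem ord_of_val_ne (h : val v f ≠ 0) : f ≠ 0 ∧ v.ord f = 0 := by
  have h0 : v.Ge f 0 := by_contra fun h1 => h (dif_neg h1)
  obtain ⟨h1, h2⟩ := Place.not_ge_iff.1 (mt (val_eq_zero_iff h0).2 h)
  have := h0.le h1
  exact ⟨h1, by omega⟩

theorem val_inv (h : v.ord f = 0) : val v f⁻¹ = (val v f)⁻¹ := by
  by_cases h0 : f = 0
  · simp [h0, val_zero]
  refine eq_inv_of_mul_eq_one_left ?_
  rw [← val_mul (Or.inr (by simp [h])) (Or.inr h.ge), inv_mul_cancel₀ h0, val_one]

theorem val_div (hf : v.Ge f 0) (hg : v.ord g = 0) : val v (f / g) = val v f / val v g := by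
  rw [div_eq_mul_inv, val_mul hf (Or.inr (by simp [hg])), val_inv hg, div_eq_mul_inv]

theorem val_zpow (h : v.ord f = 0) (n : ℤ) : val v (f ^ n) = val v f ^ n := by
  obtain ⟨m, rfl | rfl⟩ := n.eq_nat_or_neg
  · rw [zpow_natCast, zpow_natCast, val_pow (Or.inr h.ge)]
  · rw [zpow_neg, zpow_neg, zpow_natCast, zpow_natCast, val_inv (by simp [h]),
      val_pow (Or.inr h.ge)]

theorem val_sum {ι : Type} {s : Finset ι} {a : ι → K} (h : ∀ i ∈ s, v.Ge (a i) 0) :
    val v (∑ i ∈ s, a i) = ∑ i ∈ s, val v (a i) := by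
  induction s using Finset.induction_on with
  | empty => simp [val_zero]
  | insert i s hi ih =>
    have h1 : ∀ j ∈ s, v.Ge (a j) 0 := fun j hj => h j (by simp [hj])
    rw [Finset.sum_insert hi, Finset.sum_insert hi, val_add (h i (by simp)) (Place.Ge.sum h1), ih h1]

theorem ge_prod_zero {ι : Type} {s : Finset ι} {a : ι → K} (h : ∀ i ∈ s, v.Ge (a i) 0) :
    v.Ge (∏ i ∈ s, a i) 0 :=
  Finset.prod_induction a (fun x => v.Ge x 0) (fun _ _ => ge_mul_zero) v.ge_one h

theorem val_prod {ι : Type} {s : Finset ι} {a : ι → K} (h : ∀ i ∈ s, v.Ge (a i) 0) :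
    val v (∏ i ∈ s, a i) = ∏ i ∈ s, val v (a i) := by
  induction s using Finset.induction_on with
  | empty => simp [val_one]
  | insert i s hi ih =>
    have h1 : ∀ j ∈ s, v.Ge (a j) 0 := fun j hj => h j (by simp [hj])
    rw [Finset.prod_insert hi, Finset.prod_insert hi, val_mul (h i (by simp)) (ge_prod_zero h1),
      ih h1]

theorem SA.val_pl (s : SA k K) (v : Place k K) (f : K) :
    val (s.pl v) (s.γ f) = s.a (val v f) := by
  by_cases h : v.Ge f 0
  · exact val_eq (by rw [← s.h, ← map_sub, s.pl_ge]; exact val_spec h)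
  · rw [val, dif_neg (by rwa [s.pl_ge]), val, dif_neg h, map_zero]

theorem val_over {L : Type} [Field L] [Algebra k L] [Algebra L K] [IsScalarTower k L K] [IsFF k L]
    {w : Place k K} {v : Place k L} {e : ℕ} (h : w.Over v e) (x : L) :
    val w (algebraMap L K x) = val v x := by
  by_cases h0 : v.Ge x 0
  · exact val_eq (by
      rw [IsScalarTower.algebraMap_apply k L K, ← map_sub, h.ge_one]; exact val_spec h0)
  · rw [val, dif_neg (by rwa [h.ge_zero]), val, dif_neg h0]

/-- `f` has neither zero nor pole on the support of `D` -/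
def Dj (f : K) (D : Dv k K) : Prop := f ≠ 0 ∧ ∀ v, D v ≠ 0 → v.ord f = 0

/-- the value of a function on a divisor -/
def evD (f : K) (D : Dv k K) : k := D.prod fun v m => val v f ^ m

theorem Dj.of_supp (h : Dj f D) (h' : ∀ v, D' v ≠ 0 → D v ≠ 0) : Dj f D' :=
  ⟨h.1, fun v hv => h.2 v (h' v hv)⟩

theorem Dj.add (h : Dj f D) (h' : Dj f D') : Dj f (D + D') :=
  ⟨h.1, fun v hv => by
    by_cases h1 : D v = 0
    · exact h'.2 v fun h2 => hv (by simp [h1, h2])
    · exact h.2 v h1⟩

theorem Dj.neg (h : Dj f D) : Dj f (-D) := h.of_supp fun v hv => by simpa using hv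

theorem Dj.sub (h : Dj f D) (h' : Dj f D') : Dj f (D - D') := sub_eq_add_neg D D' ▸ h.add h'.neg

theorem Dj.zsmul (h : Dj f D) (n : ℤ) : Dj f (n • D) :=
  h.of_supp fun v hv h1 => hv (by simp [h1])

theorem Dj.nsmul (h : Dj f D) (n : ℕ) : Dj f (n • D) :=
  h.of_supp fun v hv h1 => hv (by simp [h1])

theorem dj_zero (h : f ≠ 0) : Dj f (0 : Dv k K) := ⟨h, fun _ hv => absurd rfl hv⟩

theorem dj_single (h0 : f ≠ 0) (h : v.ord f = 0) (m : ℤ) : Dj f (Finsupp.single v m) :=
  ⟨h0, fun w hw => by rwa [(Finsupp.mem_support_single _ _ _).1 (Finsupp.mem_support_iff.2 hw) |>.1]⟩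

theorem Dj.sum {ι : Type} {s : Finset ι} {A : ι → Dv k K} (h0 : f ≠ 0) (h : ∀ i ∈ s, Dj f (A i)) :
    Dj f (∑ i ∈ s, A i) :=
  Finset.sum_induction A (Dj f) (fun _ _ => Dj.add) (dj_zero h0) h

theorem Dj.mul (h : Dj f D) (h' : Dj g D) : Dj (f * g) D :=
  ⟨mul_ne_zero h.1 h'.1, fun v hv => by rw [v.ord_mul h.1 h'.1, h.2 v hv, h'.2 v hv, add_zero]⟩

theorem Dj.inv (h : Dj f D) : Dj f⁻¹ D := ⟨inv_ne_zero h.1, fun v hv => by simp [h.2 v hv]⟩

theorem Dj.div (h : Dj f D) (h' : Dj g D) : Dj (f / g) D := div_eq_mul_inv f g ▸ h.mul h'.inv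

theorem Dj.pow (h : Dj f D) (n : ℕ) : Dj (f ^ n) D :=
  ⟨pow_ne_zero _ h.1, fun v hv => by simp [h.2 v hv]⟩

theorem Dj.zpow (h : Dj f D) (n : ℤ) : Dj (f ^ n) D :=
  ⟨zpow_ne_zero _ h.1, fun v hv => by simp [h.2 v hv]⟩

theorem dj_const {c : k} (hc : c ≠ 0) (D : Dv k K) : Dj (algebraMap k K c) D :=
  ⟨by simpa using hc, fun v _ => v.ord_const c⟩

theorem dj_one (D : Dv k K) : Dj (1 : K) D := ⟨one_ne_zero, fun v _ => v.ord_one⟩

theorem Dj.prod {ι : Type} {s : Finset ι} {a : ι → K} (h : ∀ i ∈ s, Dj (a i) D) :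
    Dj (∏ i ∈ s, a i) D :=
  Finset.prod_induction a (fun x => Dj x D) (fun _ _ => Dj.mul) (dj_one D) h

theorem evD_eq_prod (f : K) {s : Finset (Place k K)} (hs : D.support ⊆ s) :
    evD f D = ∏ v ∈ s, val v f ^ D v := Finsupp.prod_of_support_subset _ hs _ fun _ _ => zpow_zero _

theorem evD_zero (f : K) : evD f (0 : Dv k K) = 1 := Finsupp.prod_zero_index

theorem evD_single (f : K) (v : Place k K) (m : ℤ) : evD f (Finsupp.single v m) = val v f ^ m :=
  Finsupp.prod_single_index (zpow_zero _)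

theorem evD_ne_zero (h : Dj f D) : evD f D ≠ 0 :=
  Finset.prod_ne_zero_iff.2 fun v hv =>
    zpow_ne_zero _ (val_ne_zero h.1 (h.2 v (Finsupp.mem_support_iff.1 hv)))

theorem evD_add (h : Dj f D) (h' : Dj f D') : evD f (D + D') = evD f D * evD f D' := by
  refine Finsupp.prod_add_index (fun _ _ => zpow_zero _) fun v hv a b => zpow_add₀ ?_ _ _
  rcases Finset.mem_union.1 hv with h1 | h1
  · exact val_ne_zero h.1 (h.2 v (Finsupp.mem_support_iff.1 h1))
  · exact val_ne_zero h.1 (h'.2 v (Finsupp.mem_support_iff.1 h1))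

theorem evD_neg (h : Dj f D) : evD f (-D) = (evD f D)⁻¹ :=
  eq_inv_of_mul_eq_one_left (by rw [← evD_add h.neg h, neg_add_cancel, evD_zero])

theorem evD_sub (h : Dj f D) (h' : Dj f D') : evD f (D - D') = evD f D / evD f D' := by
  rw [sub_eq_add_neg, evD_add h h'.neg, evD_neg h', div_eq_mul_inv]

theorem evD_nsmul (h : Dj f D) (n : ℕ) : evD f (n • D) = evD f D ^ n := by
  induction n with
  | zero => simp [evD_zero]
  | succ n ih => rw [succ_nsmul, evD_add (h.nsmul n) h, ih, pow_succ]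

theorem evD_zsmul (h : Dj f D) (n : ℤ) : evD f (n • D) = evD f D ^ n := by
  obtain ⟨m, rfl | rfl⟩ := n.eq_nat_or_neg
  · rw [natCast_zsmul, evD_nsmul h, zpow_natCast]
  · rw [neg_zsmul, natCast_zsmul, evD_neg (h.nsmul m), evD_nsmul h, zpow_neg, zpow_natCast]

theorem evD_sum {ι : Type} {s : Finset ι} {A : ι → Dv k K} (h0 : f ≠ 0) (h : ∀ i ∈ s, Dj f (A i)) :
    evD f (∑ i ∈ s, A i) = ∏ i ∈ s, evD f (A i) := by
  induction s using Finset.induction_on with
  | empty => simp [evD_zero]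
  | insert i s hi ih =>
    have h1 : ∀ j ∈ s, Dj f (A j) := fun j hj => h j (by simp [hj])
    rw [Finset.sum_insert hi, Finset.prod_insert hi, evD_add (h i (by simp)) (Dj.sum h0 h1), ih h1]

theorem evD_mul (h : Dj f D) (h' : Dj g D) : evD (f * g) D = evD f D * evD g D := by
  rw [evD, evD, evD, ← Finsupp.prod_mul]
  refine Finsupp.prod_congr fun v hv => ?_
  have := Finsupp.mem_support_iff.1 hv
  rw [val_mul (Or.inr (h.2 v this).ge) (Or.inr (h'.2 v this).ge), mul_zpow]

theorem evD_one (D : Dv k K) : evD (1 : K) D = 1 := by simp [evD, val_one, Finsupp.prod]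

theorem evD_inv (h : Dj f D) : evD f⁻¹ D = (evD f D)⁻¹ :=
  eq_inv_of_mul_eq_one_left (by rw [← evD_mul h.inv h, inv_mul_cancel₀ h.1, evD_one])

theorem evD_div (h : Dj f D) (h' : Dj g D) : evD (f / g) D = evD f D / evD g D := by
  rw [div_eq_mul_inv, evD_mul h h'.inv, evD_inv h', div_eq_mul_inv]

theorem evD_pow (h : Dj f D) (n : ℕ) : evD (f ^ n) D = evD f D ^ n := by
  induction n with
  | zero => simp [evD_one]
  | succ n ih => rw [pow_succ, evD_mul (h.pow n) h, ih, pow_succ]

theorem evD_zpow (h : Dj f D) (n : ℤ) : evD (f ^ n) D = evD f D ^ n := by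
  obtain ⟨m, rfl | rfl⟩ := n.eq_nat_or_neg
  · rw [zpow_natCast, zpow_natCast, evD_pow h]
  · rw [zpow_neg, zpow_neg, zpow_natCast, zpow_natCast, evD_inv (h.pow m), evD_pow h]

theorem evD_prod {ι : Type} {s : Finset ι} {a : ι → K} (h : ∀ i ∈ s, Dj (a i) D) :
    evD (∏ i ∈ s, a i) D = ∏ i ∈ s, evD (a i) D := by
  induction s using Finset.induction_on with
  | empty => simp [evD_one]
  | insert i s hi ih =>
    have h1 : ∀ j ∈ s, Dj (a j) D := fun j hj => h j (by simp [hj])
    rw [Finset.prod_insert hi, Finset.prod_insert hi, evD_mul (h i (by simp)) (Dj.prod h1), ih h1]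

theorem evD_const {c : k} (hc : c ≠ 0) (D : Dv k K) : evD (algebraMap k K c) D = c ^ deg D := by
  induction D using Finsupp.induction_linear with
  | zero => simp [evD_zero]
  | add a b ha hb => rw [evD_add (dj_const hc a) (dj_const hc b), ha, hb, map_add, zpow_add₀ hc]
  | single v m => rw [evD_single, val_const, deg_single]

theorem SA.dj (s : SA k K) : Dj (s.γ f) (s.dm D) ↔ Dj f D := by
  refine and_congr (by simp) ⟨fun h v hv => ?_, fun h v hv => ?_⟩
  · simpa using h (s.pl v) (by simpa using hv)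
  · obtain ⟨w, rfl⟩ := s.pl.surjective v
    simpa using h w (by simpa using hv)

theorem SA.evD (s : SA k K) (f : K) (D : Dv k K) : evD (s.γ f) (s.dm D) = s.a (evD f D) := by
  rw [W.evD, W.evD, map_finsuppProd]
  refine (Finsupp.prod_equivMapDomain _ _ _).trans (Finsupp.prod_congr fun v _ => ?_)
  rw [s.val_pl, map_zpow₀]

variable [CharZero k]

theorem dj_dv_symm (hg : g ≠ 0) (h : Dj f (dv k g)) : Dj g (dv k f) :=
  ⟨hg, fun v hv => by_contra fun h1 => hv (h.2 v h1)⟩

/-- functions with the same divisor have the same value on divisors of degree zero -/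
theorem evD_congr (hf : f ≠ 0) (h : Dj g D) (e : dv k f = dv k g) (hD : deg D = 0) :
    Dj f D ∧ evD f D = evD g D := by
  obtain ⟨c, hc⟩ := const_of_dv (k := k) (f := f / g) (by rw [dv_div hf h.1, e, sub_self])
  have hc0 : c ≠ 0 := fun h0 => div_ne_zero hf h.1 (by simp [hc, h0])
  have h1 : f = algebraMap k K c * g := by rw [← hc, div_mul_cancel₀ _ h.1]
  rw [h1, evD_mul (dj_const hc0 D) h, evD_const hc0, hD, zpow_zero, one_mul]
  exact ⟨(dj_const hc0 D).mul h, rfl⟩

end

end Pool.Agent.Lib.MP_07b2d0_nt.W
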