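import Pool.Agent.Lib.MP_07b2d0_nt.W.WBC

set_option autoImplicit false
set_option linter.unusedSectionVars false
set_option linter.unusedVariables false

namespace Pool.Agent.Lib.MP_07b2d0_nt.W

open Pool.Agent.Lib.MP_6adaea_nt 
open scoped Classical

noncomputable section

variable {k Ω F : Type} (K : Type) [Field k] [Field K] [Field Ω] [Field F] [Algebra k K]
  [Algebra k Ω] [Algebra k F] [Algebra K F] [Algebra Ω F] [IsScalarTower k K F]
  [IsScalarTower k Ω F] [BC k K Ω F] (U : KV k Ω)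

/-- reduction on the tensor product -/
def rho : F → K :=
  (bil F ((Algebra.ofId k K).comp U.rsH) (Subalgebra.val (⊤ : Subalgebra k K))).choose

theorem wg1_spec : (∀ y ∈ TT F U.sub (⊤ : Subalgebra k K), ∀ z ∈ TT F U.sub (⊤ : Subalgebra k K),
    rho K U (y + z) = rho K U y + rho K U z ∧ rho K U (y * z) = rho K U y * rho K U z) ∧
    (∀ c ∈ U.O, rho K U (algebraMap Ω F c) = algebraMap k K (U.rs c)) ∧
    ∀ a : K, rho K U (algebraMap K F a) = a :=
  have h := (bil F ((Algebra.ofId k K).comp U.rsH)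
    (Subalgebra.val (⊤ : Subalgebra k K))).choose_spec
  ⟨h.1, fun c hc => h.2.1 ⟨c, hc⟩, fun a => h.2.2 ⟨a, trivial⟩⟩

theorem wg1_one : rho K U (1 : F) = 1 := by simpa using (wg1_spec (F := F) K U).2.2 1

theorem wg1_zero : rho K U (0 : F) = 0 := by simpa using (wg1_spec (F := F) K U).2.2 0

/-- the ring of the Gauss valuation -/
def Gs : Subring F where
  carrier := {f | ∃ y ∈ TT F U.sub (⊤ : Subalgebra k K), ∃ z ∈ TT F U.sub (⊤ : Subalgebra k K),
    rho K U z ≠ 0 ∧ f * z = y}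
  zero_mem' := ⟨0, zero_mem _, 1, one_mem _, by simp [wg1_one], zero_mul _⟩
  one_mem' := ⟨1, one_mem _, 1, one_mem _, by simp [wg1_one], one_mul _⟩
  add_mem' := by
    rintro f g ⟨y, hy, z, hz, h0, rfl⟩ ⟨y', hy', z', hz', h0', rfl⟩
    exact ⟨_, add_mem (mul_mem hy hz') (mul_mem hy' hz), z * z', mul_mem hz hz', by
      rw [((wg1_spec K U).1 z hz z' hz').2]; exact mul_ne_zero h0 h0', by ring⟩
  neg_mem' := by
    rintro f ⟨y, hy, z, hz, h0, rfl⟩
    exact ⟨_, neg_mem hy, z, hz, h0, neg_mul _ _⟩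
  mul_mem' := by
    rintro f g ⟨y, hy, z, hz, h0, rfl⟩ ⟨y', hy', z', hz', h0', rfl⟩
    exact ⟨_, mul_mem hy hy', z * z', mul_mem hz hz', by
      rw [((wg1_spec K U).1 z hz z' hz').2]; exact mul_ne_zero h0 h0', by ring⟩

/-- reduction on the Gauss ring (junk value `0`) -/
def red (f : F) : K :=
  if h : f ∈ Gs K U then rho K U h.choose / rho K U h.choose_spec.2.choose else 0

variable {K U} {f g y z : F}

theorem rho_add (hy : y ∈ TT F U.sub (⊤ : Subalgebra k K))
    (hz : z ∈ TT F U.sub (⊤ : Subalgebra k K)) : rho K U (y + z) = rho K U y + rho K U z :=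
  ((wg1_spec K U).1 y hy z hz).1

theorem rho_mul (hy : y ∈ TT F U.sub (⊤ : Subalgebra k K))
    (hz : z ∈ TT F U.sub (⊤ : Subalgebra k K)) : rho K U (y * z) = rho K U y * rho K U z :=
  ((wg1_spec K U).1 y hy z hz).2

theorem rho_K (a : K) : rho K U (algebraMap K F a) = a := (wg1_spec K U).2.2 a

theorem rho_Ω {c : Ω} (h : c ∈ U.O) : rho K U (algebraMap Ω F c) = algebraMap k K (U.rs c) :=
  (wg1_spec K U).2.1 c h

theorem wg1_sum {ι : Type} (s : Finset ι) {c : ι → Ω} (a : ι → K) (h : ∀ i, c i ∈ U.O) :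
    rho K U (∑ i ∈ s, algebraMap Ω F (c i) * algebraMap K F (a i)) = ∑ i ∈ s, U.rs (c i) • a i := by
  have h1 : ∀ i, algebraMap Ω F (c i) ∈ TT F U.sub (⊤ : Subalgebra k K) := fun i =>
    left_mem_TT _ (h i)
  have h2 : ∀ i, algebraMap K F (a i) ∈ TT F U.sub (⊤ : Subalgebra k K) := fun i =>
    right_mem_TT _ trivial
  induction s using Finset.induction_on with
  | empty => simpa using wg1_zero K U
  | insert i s hi ih =>
    rw [Finset.sum_insert hi, Finset.sum_insert hi, rho_add (mul_mem (h1 i) (h2 i))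
      (sum_mem fun j _ => mul_mem (h1 j) (h2 j)), ih, rho_mul (h1 i) (h2 i), rho_K, rho_Ω (h i),
      Algebra.smul_def]

theorem rho_mem {B : Subalgebra k K} (hy : y ∈ TT F U.sub B) : rho K U y ∈ B := by
  obtain ⟨n, c, a, hc, ha, rfl⟩ := mem_TT.1 hy
  rw [wg1_sum _ a hc]
  exact sum_mem fun i _ => B.smul_mem (ha i) _

/-- `mem_TT_li`, `KV.exists_max` -/
theorem exists_prim {B : Subalgebra k K} (hy : y ∈ TT F (⊤ : Subalgebra k Ω) B) (h0 : y ≠ 0) :
    ∃ c : Ω, c ≠ 0 ∧ y / algebraMap Ω F c ∈ TT F U.sub B ∧ rho K U (y / algebraMap Ω F c) ≠ 0 := by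
  obtain ⟨n, c, a, -, ha, hl, rfl⟩ := mem_TT_li hy
  obtain ⟨j, -, hj, h⟩ := U.exists_max Finset.univ c (by
    by_contra h
    exact h0 (Finset.sum_eq_zero fun i hi => by
      rw [not_not.1 fun e => h ⟨i, hi, e⟩, map_zero, zero_mul]))
  have e : (∑ i, algebraMap Ω F (c i) * algebraMap K F (a i)) / algebraMap Ω F (c j) =
      ∑ i, algebraMap Ω F (c i / c j) * algebraMap K F (a i) := by
    rw [Finset.sum_div]
    exact Finset.sum_congr rfl fun i _ => by rw [map_div₀, div_mul_eq_mul_div]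
  have h1 := fun i => h i (Finset.mem_univ i)
  refine ⟨c j, hj, e ▸ mem_TT.2 ⟨n, _, a, h1, ha, rfl⟩, fun h2 => ?_⟩
  rw [e, wg1_sum _ a h1] at h2
  have := Fintype.linearIndependent_iff.1 hl _ h2 j
  rw [div_self hj, U.rs_one] at this
  exact one_ne_zero this

theorem red_eq (hy : y ∈ TT F U.sub (⊤ : Subalgebra k K))
    (hz : z ∈ TT F U.sub (⊤ : Subalgebra k K)) (h0 : rho K U z ≠ 0) (h : f * z = y) :
    f ∈ Gs K U ∧ red K U f = rho K U y / rho K U z := by
  have hf : f ∈ Gs K U := ⟨y, hy, z, hz, h0, h⟩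
  obtain ⟨h1, h2⟩ := hf.choose_spec
  obtain ⟨h3, h4, h5⟩ := h2.choose_spec
  refine ⟨hf, (dif_pos hf).trans ((div_eq_div_iff h4 h0).2 ?_)⟩
  rw [← rho_mul h1 hz, ← rho_mul hy h3]
  congr 1
  linear_combination h2.choose * h - z * h5

theorem red_rho (hy : y ∈ TT F U.sub (⊤ : Subalgebra k K)) :
    y ∈ Gs K U ∧ red K U y = rho K U y := by
  simpa [wg1_one] using red_eq hy (one_mem _) (by simp [wg1_one]) (mul_one y)

theorem K_mem_Gs (a : K) : algebraMap K F a ∈ Gs K U := (red_rho (right_mem_TT _ trivial)).1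

theorem Ω_mem_Gs {c : Ω} (h : c ∈ U.O) : algebraMap Ω F c ∈ Gs K U := (red_rho (left_mem_TT _ h)).1

theorem red_K (a : K) : red K U (algebraMap K F a) = a :=
  (red_rho (right_mem_TT _ trivial)).2.trans (rho_K a)

theorem red_Ω {c : Ω} (h : c ∈ U.O) : red K U (algebraMap Ω F c) = algebraMap k K (U.rs c) :=
  (red_rho (left_mem_TT _ h)).2.trans (rho_Ω h)

theorem red_add (hf : f ∈ Gs K U) (hg : g ∈ Gs K U) : red K U (f + g) = red K U f + red K U g := by
  obtain ⟨y, hy, z, hz, h0, h⟩ := hf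
  obtain ⟨y', hy', z', hz', h0', h'⟩ := hg
  rw [(red_eq hy hz h0 h).2, (red_eq hy' hz' h0' h').2,
    (red_eq (add_mem (mul_mem hy hz') (mul_mem hz hy')) (mul_mem hz hz')
      (by rw [rho_mul hz hz']; exact mul_ne_zero h0 h0') (by rw [← h, ← h']; ring)).2,
    rho_add (mul_mem hy hz') (mul_mem hz hy'), rho_mul hy hz', rho_mul hz hy', rho_mul hz hz',
    div_add_div _ _ h0 h0']

theorem red_mul (hf : f ∈ Gs K U) (hg : g ∈ Gs K U) : red K U (f * g) = red K U f * red K U g := by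
  obtain ⟨y, hy, z, hz, h0, h⟩ := hf
  obtain ⟨y', hy', z', hz', h0', h'⟩ := hg
  rw [(red_eq hy hz h0 h).2, (red_eq hy' hz' h0' h').2,
    (red_eq (mul_mem hy hy') (mul_mem hz hz')
      (by rw [rho_mul hz hz']; exact mul_ne_zero h0 h0') (by rw [← h, ← h']; ring)).2,
    rho_mul hy hy', rho_mul hz hz', div_mul_div_comm]

variable (K U F) in
/-- the reduction as a homomorphism -/
def redH : Gs (F := F) K U →+* K where
  toFun f := red K U (f : F)
  map_one' := by simpa using red_K (F := F) (U := U) (1 : K)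
  map_zero' := by simpa using red_K (F := F) (U := U) (0 : K)
  map_mul' a b := red_mul a.2 b.2
  map_add' a b := red_add a.2 b.2

theorem red_zero : red K U (0 : F) = 0 := (redH F K U).map_zero

theorem red_one : red K U (1 : F) = 1 := (redH F K U).map_one

theorem red_sub (hf : f ∈ Gs K U) (hg : g ∈ Gs K U) : red K U (f - g) = red K U f - red K U g :=
  (redH F K U).map_sub ⟨f, hf⟩ ⟨g, hg⟩

theorem red_pow (hf : f ∈ Gs K U) (n : ℕ) : red K U (f ^ n) = red K U f ^ n :=
  (redH F K U).map_pow ⟨f, hf⟩ n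

theorem red_sum {ι : Type} {s : Finset ι} {a : ι → F} (h : ∀ i ∈ s, a i ∈ Gs K U) :
    red K U (∑ i ∈ s, a i) = ∑ i ∈ s, red K U (a i) := by
  induction s using Finset.induction_on with
  | empty => simpa using red_zero
  | insert i s hi ih =>
    have h1 := fun j hj => h j (Finset.mem_insert_of_mem hj)
    rw [Finset.sum_insert hi, Finset.sum_insert hi,
      red_add (h i (Finset.mem_insert_self _ _)) (sum_mem h1), ih h1]

theorem red_prod {ι : Type} {s : Finset ι} {a : ι → F} (h : ∀ i ∈ s, a i ∈ Gs K U) :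
    red K U (∏ i ∈ s, a i) = ∏ i ∈ s, red K U (a i) := by
  induction s using Finset.induction_on with
  | empty => simpa using red_one
  | insert i s hi ih =>
    have h1 := fun j hj => h j (Finset.mem_insert_of_mem hj)
    rw [Finset.prod_insert hi, Finset.prod_insert hi,
      red_mul (h i (Finset.mem_insert_self _ _)) (prod_mem h1), ih h1]

theorem mem_Gs_of_red (h : red K U f ≠ 0) : f ∈ Gs K U := by_contra fun h1 => h (dif_neg h1)

theorem ne_zero_of_red (h : red K U f ≠ 0) : f ≠ 0 := fun h1 => h (by rw [h1, red_zero])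

theorem red_inv (h : red K U f ≠ 0) : red K U f⁻¹ = (red K U f)⁻¹ := by
  obtain ⟨y, hy, z, hz, h0, e⟩ := mem_Gs_of_red h
  have h1 := (red_eq hy hz h0 e).2
  rw [h1, inv_div]
  exact (red_eq hz hy (fun x => h (by rw [h1, x, zero_div]))
    (by rw [← e, inv_mul_cancel_left₀ (ne_zero_of_red h)])).2

theorem red_zpow (h : red K U f ≠ 0) (n : ℤ) : red K U (f ^ n) = red K U f ^ n := by
  have h1 := red_pow (mem_Gs_of_red h)
  obtain ⟨m, rfl | rfl⟩ := n.eq_nat_or_neg
  · rw [zpow_natCast, zpow_natCast, h1]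
  · rw [zpow_neg, zpow_neg, zpow_natCast, zpow_natCast,
      red_inv (by rw [h1]; exact pow_ne_zero _ h), h1]

variable (K U) in
/-- `BC.frac`, `exists_prim` -/
theorem exists_norm (h : f ≠ 0) : ∃ c : Ω, c ≠ 0 ∧ red K U (f / algebraMap Ω F c) ≠ 0 := by
  obtain ⟨y, hy, z, hz, h0, rfl⟩ := BC.frac (k := k) (K := K) (Ω := Ω) f
  obtain ⟨c, c0, c1, c2⟩ := exists_prim (U := U) hy fun e => h (by rw [e, zero_div])
  obtain ⟨d, d0, d1, d2⟩ := exists_prim (U := U) hz h0
  have c3 := (map_ne_zero (algebraMap Ω F)).2 c0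
  have d3 := (map_ne_zero (algebraMap Ω F)).2 d0
  refine ⟨c / d, div_ne_zero c0 d0, ?_⟩
  rw [(red_eq c1 d1 d2 (by rw [map_div₀]; field_simp)).2]
  exact div_ne_zero c2 d2

/-- if `c ∉ U.O` then `1 = c⁻¹ * c` reduces to zero -/
theorem mem_of_Gs {c : Ω} (h : algebraMap Ω F c ∈ Gs K U) : c ∈ U.O := by
  by_contra h1
  obtain ⟨h2, h3, h4⟩ := U.inv_of_notMem h1
  have := red_mul (Ω_mem_Gs (K := K) (F := F) h3) h
  rw [← map_mul, inv_mul_cancel₀ h2, map_one, red_one, red_Ω h3, h4, map_zero, zero_mul] at this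
  exact one_ne_zero this

end

end Pool.Agent.Lib.MP_07b2d0_nt.W
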