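import Pool.Agent.Lib.MP_07b2d0_nt.W.WG2

set_option autoImplicit false
set_option linter.unusedSectionVars false
set_option linter.unusedVariables false

namespace Pool.Agent.Lib.MP_07b2d0_nt.W

open Pool.Agent.Lib.MP_6adaea_nt 
open scoped Classical

noncomputable section

variable {k K Ω F : Type} [Field k] [Field K] [Field Ω] [Field F] [Algebra k K]
  [Algebra k Ω] [Algebra k F] [Algebra K F] [Algebra Ω F] [IsScalarTower k K F]
  [IsScalarTower k Ω F] [BC k K Ω F] [IsAlgClosed k] [IsFF k K] [CharZero k] [IsAlgClosed Ω]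
  [IsFF Ω F] [CharZero Ω]

/-- the linear function `t - t(Q)` -/
def lin (Q : Place Ω F) (t : K) : F :=
  algebraMap K F t - algebraMap Ω F (val Q (algebraMap K F t))

variable {U : KV k Ω} {x : Place k K} {f g : F} {Q : Place Ω F} {t : K}

theorem lin_mem (h : Sp U Q x) (ht : x.ord t = 1) : lin Q t ∈ Bx U x :=
  sub_mem (K_mem_Bx (Or.inr (by omega))) (Ω_mem_Bx (h t (Or.inr (by omega))).2.1)

theorem red_lin (h : Sp U Q x) (ht : x.ord t = 1) : red K U (lin Q t) = t := by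
  have h0 : x.Ge t 0 := Or.inr (by omega)
  obtain ⟨-, h1, h2⟩ := h t h0
  rw [lin, red_sub (K_mem_Gs _) (Ω_mem_Gs h1), red_K, red_Ω h1, h2,
    (val_eq_zero_iff h0).2 (Or.inr ht.ge), map_zero, sub_zero]

theorem val_lin {Q' : Place Ω F} (h : Q'.Ge (algebraMap K F t) 0) :
    val Q' (lin Q t) = val Q' (algebraMap K F t) - val Q (algebraMap K F t) := by
  rw [lin, val_sub h (Q'.ge_const _), val_const]

/-- evaluation at `Q` as an endomorphism of the local ring -/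
def wg3_ev (h : Sp U Q x) : Bx (F := F) U x →+* Bx (F := F) U x where
  toFun f := ⟨algebraMap Ω F (val Q f), Ω_mem_Bx (h.eval f.2).2.1⟩
  map_one' := Subtype.ext ((congrArg (algebraMap Ω F) (val_one Q)).trans (map_one _))
  map_zero' := Subtype.ext ((congrArg (algebraMap Ω F) (val_zero Q)).trans (map_zero _))
  map_mul' a b := Subtype.ext ((congrArg (algebraMap Ω F)
    (val_mul (h.eval a.2).1 (h.eval b.2).1)).trans (map_mul _ _ _))
  map_add' a b := Subtype.ext ((congrArg (algebraMap Ω F)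
    (val_add (h.eval a.2).1 (h.eval b.2).1)).trans (map_add _ _ _))

/-- the functions that are congruent to their value at `Q` -/
def wg3_R (h : Sp U Q x) (J : Ideal (Bx (F := F) U x)) : Subring F :=
  ((Ideal.Quotient.mk J).eqLocus ((Ideal.Quotient.mk J).comp (wg3_ev h))).map (Bx U x).subtype

theorem wg3_mem (h : Sp U Q x) {J : Ideal (Bx (F := F) U x)} (a : Bx (F := F) U x) :
    (a : F) ∈ wg3_R h J ↔ a - wg3_ev h a ∈ J :=
  ⟨fun ⟨b, hb, e⟩ => Subtype.ext e ▸ Ideal.Quotient.eq.1 hb,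
    fun e => ⟨a, Ideal.Quotient.eq.2 e, rfl⟩⟩

theorem wg3_const (h : Sp U Q x) {c : Ω} (hc : c ∈ U.O) :
    wg3_ev h ⟨algebraMap Ω F c, Ω_mem_Bx hc⟩ = ⟨algebraMap Ω F c, Ω_mem_Bx hc⟩ :=
  Subtype.ext (congrArg (algebraMap Ω F) (val_const Q c))

theorem wg3_cmem (h : Sp U Q x) (J : Ideal (Bx (F := F) U x)) (c : Ω) (hc : c ∈ U.O) :
    algebraMap Ω F c ∈ wg3_R h J :=
  (wg3_mem h ⟨_, Ω_mem_Bx hc⟩).2 (by rw [wg3_const h hc, sub_self]; exact zero_mem _)

theorem wg3_unit (hf : f ∈ Bx U x) (h0 : val x (red K U f) ≠ 0) :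
    (⟨f, hf⟩ * ⟨f⁻¹, inv_mem_Bx hf h0⟩ : Bx (F := F) U x) = 1 :=
  Subtype.ext (mul_inv_cancel₀ (ne_zero_of_red (ord_of_val_ne h0).1))

theorem wg3_inv (h : Sp U Q x) (J : Ideal (Bx (F := F) U x)) (z : F) (hz : z ∈ wg3_R h J)
    (hb : z ∈ Bx U x) (h0 : val x (red K U z) ≠ 0) : z⁻¹ ∈ wg3_R h J := by
  have h1 := (wg3_mem h ⟨z, hb⟩).1 hz
  have h2 := wg3_unit hb h0
  have h3 := congrArg (wg3_ev h) h2
  rw [map_mul, map_one] at h3
  refine (wg3_mem h ⟨_, inv_mem_Bx hb h0⟩).2 ?_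
  generalize (⟨z⁻¹, _⟩ : Bx (F := F) U x) = b at h2 h3 ⊢
  generalize (⟨z, _⟩ : Bx (F := F) U x) = a at h1 h2 h3
  rw [show b - wg3_ev h b = -(b * wg3_ev h b) * (a - wg3_ev h a) by
    linear_combination wg3_ev h b * h2 - b * h3]
  exact J.mul_mem_left _ h1

theorem wg3_jac (ht : x.Ge t 1) (h0 : x.Ge t 0) : Ideal.span {(⟨algebraMap K F t, K_mem_Bx h0⟩ :
    Bx (F := F) U x)} ≤ Ideal.jacobson ⊥ := by
  rw [Ideal.span_singleton_le_iff_mem, Ideal.mem_jacobson_bot]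
  intro y
  refine IsUnit.of_mul_eq_one _ (wg3_unit (f := algebraMap K F t * y + 1)
    (add_mem (mul_mem (K_mem_Bx h0) y.2) (one_mem _)) ?_)
  rw [red_add (mul_mem (K_mem_Gs _) (Bx_le y.2)) (one_mem _), red_mul (K_mem_Gs _) (Bx_le y.2),
    red_K, red_one, val_add (ge_mul_zero h0 (red_ge y.2)) x.ge_one, val_mul h0 (red_ge y.2),
    (val_eq_zero_iff h0).2 ht, zero_mul, zero_add, val_one]
  exact one_ne_zero

/-- Nakayama's lemma in the ring `Bx U x`. -/
theorem Sp.div (h : Sp U Q x) (ht : x.ord t = 1) (hg : g ∈ Bx U x) (h0 : val Q g = 0) :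
    ∃ g' ∈ Bx U x, g = lin Q t * g' := by
  obtain ⟨s, hs, hA⟩ := exists_gens x
  have t0 : x.Ge t 0 := Or.inr (by omega)
  have t1 : t ≠ 0 := fun e => by simp [e] at ht
  let ι : ∀ a, x.Ge a 0 → Bx (F := F) U x := fun a ha => ⟨algebraMap K F a, K_mem_Bx ha⟩
  let L : Bx (F := F) U x := ι t t0 - wg3_ev h (ι t t0)
  let J : Ideal (Bx (F := F) U x) :=
    Ideal.span (Set.range fun y : s => ι y (hs y y.2) - wg3_ev h (ι y (hs y y.2)))
  have hk : ∀ c : k, algebraMap K F (algebraMap k K c) = algebraMap Ω F (algebraMap k Ω c) :=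
    fun c => by rw [← IsScalarTower.algebraMap_apply, ← IsScalarTower.algebraMap_apply]
  have h1 : ∀ a, x.Ge a 0 → algebraMap K F a ∈ wg3_R h J :=
    hA ((wg3_R h J).comap (algebraMap K F))
      (fun c => Subring.mem_comap.2 (hk c ▸ wg3_cmem h J _ (U.const c)))
      (fun y hy => (wg3_mem h (ι y (hs y hy))).2 (Ideal.subset_span ⟨⟨y, hy⟩, rfl⟩))
      fun a ha h0 => by
        rcases eq_or_ne a 0 with rfl | h2
        · rwa [inv_zero]
        · rw [Subring.mem_comap, map_inv₀]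
          exact wg3_inv h J _ ha (K_mem_Bx (Or.inr h0.ge)) (by rw [red_K]; exact val_ne_zero h2 h0)
  have h2 : J ≤ Ideal.span {L} := by
    refine Submodule.le_of_le_smul_of_le_jacobson_bot (Submodule.fg_span (Set.finite_range _))
      (wg3_jac (Or.inr ht.ge) t0) (Ideal.span_le.2 ?_)
    rintro _ ⟨⟨y, hy⟩, rfl⟩
    have a0 : x.Ge ((y - algebraMap k K (val x y)) * t⁻¹) 0 := by
      rw [Place.ge_mul_iff (inv_ne_zero t1), Place.ord_inv, ht]
      exact val_spec (hs y hy)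
    have e : ι y (hs y hy) = ⟨_, Ω_mem_Bx (U.const (val x y))⟩ + ι t t0 * ι _ a0 := by
      refine Subtype.ext ?_
      change algebraMap K F y = _ + algebraMap K F t * algebraMap K F _
      rw [← map_mul, mul_comm, inv_mul_cancel_right₀ t1, map_sub, hk]
      exact (add_sub_cancel _ _).symm
    have e' : ι y (hs y hy) - wg3_ev h (ι y (hs y hy)) =
        wg3_ev h (ι _ a0) * L + ι t t0 * (ι _ a0 - wg3_ev h (ι _ a0)) := by
      rw [e, map_add, map_mul, wg3_const h (U.const _)]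
      ring
    change ι y (hs y hy) - wg3_ev h (ι y (hs y hy)) ∈ _
    rw [e']
    exact Submodule.add_mem_sup (Ideal.mul_mem_left _ _ (Ideal.mem_span_singleton_self L))
      (Submodule.smul_mem_smul (Ideal.mem_span_singleton_self _)
        ((wg3_mem h (ι _ a0)).1 (h1 _ a0)))
  have h3 := (wg3_mem h ⟨g, hg⟩).1 (Bx_induction (wg3_cmem h (Ideal.span {L}))
    (fun a ha => (wg3_mem h (ι a ha)).2 (h2 ((wg3_mem h (ι a ha)).1 (h1 a ha)))) (wg3_inv h _) hg)
  obtain ⟨b, hb⟩ := Ideal.mem_span_singleton.1 h3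
  have h4 : g - algebraMap Ω F (val Q g) = lin Q t * b := Subtype.ext_iff.1 hb
  exact ⟨b, b.2, by rwa [h0, map_zero, sub_zero] at h4⟩

variable (F) in
/-- the ring `Bx` with the nonzero constants inverted -/
def wg3b_A (U : KV k Ω) (x : Place k K) : Subring F where
  carrier := {f | ∃ c : Ω, c ≠ 0 ∧ algebraMap Ω F c * f ∈ Bx U x}
  zero_mem' := ⟨1, one_ne_zero, by simp⟩
  one_mem' := ⟨1, one_ne_zero, by simp⟩
  neg_mem' := fun ⟨c, h0, h⟩ => ⟨c, h0, by simpa using h⟩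
  mul_mem' := fun ⟨c, h0, h⟩ ⟨d, h1, h'⟩ => ⟨c * d, mul_ne_zero h0 h1, by
    rw [map_mul, mul_mul_mul_comm]; exact mul_mem h h'⟩
  add_mem' := by
    have key : ∀ {a : F} {c d : Ω}, d ≠ 0 → c / d ∈ U.O → algebraMap Ω F d * a ∈ Bx U x →
        algebraMap Ω F c * a ∈ Bx U x := fun h0 h1 h => by
      have := mul_mem (Ω_mem_Bx (F := F) (x := x) h1) h
      rwa [← mul_assoc, ← map_mul, div_mul_cancel₀ _ h0] at this
    rintro a b ⟨c, h0, h⟩ ⟨d, h1, h'⟩
    rcases U.O.mem_or_inv_mem (c / d) with e | e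
    · exact ⟨c, h0, mul_add _ a b ▸ add_mem h (key h1 e h')⟩
    · exact ⟨d, h1, mul_add _ a b ▸ add_mem (key h0 (inv_div c d ▸ e) h) h'⟩

/-- a function whose reduction vanishes at `x` has a zero that specialises to `x` -/
theorem exists_zero (hg : g ∈ Bx U x) (h0 : red K U g ≠ 0) (h1 : val x (red K U g) = 0) :
    ∃ Q : Place Ω F, Sp U Q x ∧ val Q g = 0 := by
  have hA : ∀ f ∈ Bx U x, f ∈ wg3b_A F U x := fun f hf => ⟨1, one_ne_zero, by simpa using hf⟩
  obtain ⟨Q, h2, h3⟩ := exists_place_of_ideal (k := Ω) (wg3b_A F U x) (fun c => by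
    by_cases hc : c = 0
    · simp [hc]
    · exact ⟨c⁻¹, inv_ne_zero hc, by rw [← map_mul, inv_mul_cancel₀ hc, map_one]; exact one_mem _⟩)
    (Ideal.span {⟨g, hA g hg⟩}) (fun e => by
      obtain ⟨⟨a, c, c0, hb⟩, ha⟩ := Ideal.mem_span_singleton'.1 (e ▸ Submodule.mem_top (x := 1))
      have ha : a * g = 1 := congrArg Subtype.val ha
      obtain ⟨d, d0, hd⟩ := exists_norm K U
        (mul_ne_zero ((map_ne_zero (algebraMap Ω F)).2 c0) (left_ne_zero_of_mul_eq_one ha))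
      have h4 := sat_Bx hb (mem_Gs_of_red hd)
      have h5 : g * (algebraMap Ω F c * a / algebraMap Ω F d) = algebraMap Ω F (c / d) := by
        rw [map_div₀, ← mul_div_assoc, mul_left_comm, mul_comm g, ha, mul_one]
      have h6 := red_mul (Bx_le hg) (Bx_le h4)
      rw [h5, red_Ω (mem_of_Gs (h5 ▸ mul_mem (Bx_le hg) (Bx_le h4)))] at h6
      have h7 := congrArg (val x) h6
      rw [val_const, val_mul (red_ge hg) (red_ge h4), h1, zero_mul] at h7
      rw [h7, map_zero] at h6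
      exact mul_ne_zero h0 hd h6.symm)
    (fun e => ne_zero_of_red h0 (congrArg Subtype.val (Ideal.span_singleton_eq_bot.1 e)))
  exact ⟨Q, sp_of_le fun f hf => h2 f (hA f hf),
    (val_eq_zero_iff (h2 g (hA g hg))).2 (h3 _ (Ideal.mem_span_singleton_self _))⟩

/-- induction on the order of the reduction -/
theorem factor (ht : x.ord t = 1) (hg : g ∈ Bx U x) (h0 : red K U g ≠ 0) :
    ∃ (u : F) (l : List (Place Ω F)), u ∈ Bx U x ∧ val x (red K U u) ≠ 0 ∧ (∀ Q ∈ l, Sp U Q x) ∧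
      g = u * (l.map fun Q => lin Q t).prod := by
  obtain ⟨n, hn⟩ := Int.eq_ofNat_of_zero_le ((red_ge hg).le h0)
  induction n generalizing g with
  | zero => exact ⟨g, [], hg, val_ne_zero h0 hn, by simp, by simp⟩
  | succ n ih =>
    obtain ⟨Q, hQ, h1⟩ := exists_zero hg h0 ((val_eq_zero_iff (red_ge hg)).2 (Or.inr (by omega)))
    obtain ⟨g', h2, rfl⟩ := hQ.div ht hg h1
    rw [red_mul (Bx_le (lin_mem hQ ht)) (Bx_le h2), red_lin hQ ht] at h0 hn
    rw [x.ord_mul (left_ne_zero_of_mul h0) (right_ne_zero_of_mul h0), ht] at hn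
    obtain ⟨u, l, h3, h4, h5, rfl⟩ := ih h2 (right_ne_zero_of_mul h0) (by omega)
    exact ⟨u, Q :: l, h3, h4, List.forall_mem_cons.2 ⟨hQ, h5⟩, by
      rw [List.map_cons, List.prod_cons, mul_left_comm]⟩

end

end Pool.Agent.Lib.MP_07b2d0_nt.W
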