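import Pool.Agent.Lib.MP_07b2d0_nt.W.WPt
import Pool.Agent.Lib.MP_07b2d0_nt.W.WExt

set_option autoImplicit false
set_option linter.unusedSectionVars false
set_option linter.unusedVariables false

namespace Pool.Agent.Lib.MP_07b2d0_nt.W

open Pool.Agent.Lib.MP_6adaea_nt Cardinal
open scoped Classical

noncomputable section

variable {k K Ω F : Type} [Field k] [Field K] [Field Ω] [Field F] [Algebra k K]
  [Algebra k Ω] [Algebra k F] [Algebra K F] [Algebra Ω F] [IsScalarTower k K F]
  [IsScalarTower k Ω F] [BC k K Ω F] [IsAlgClosed k] [IsFF k K] [CharZero k] [IsAlgClosed Ω]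
  [IsFF Ω F] [CharZero Ω]
  {κ : Cardinal.{0}}

theorem whom_inj (A : Subalgebra k Ω) [IsDomain (TensorProduct k A (⊤ : Subalgebra k K))] {t : K}
    {ξ : K →ₐ[k] Ω} (h : Transcendental A (ξ t)) : Function.Injective
      (Algebra.TensorProduct.productMap A.val (ξ.comp (⊤ : Subalgebra k K).val)) := by
  have ht : Transcendental k t := fun e => h ((e.algHom ξ).extendScalars (algebraMap k A).injective)
  let j : K →ₐ[k] TensorProduct k A (⊤ : Subalgebra k K) :=
    Algebra.TensorProduct.includeRight.comp Subalgebra.topEquiv.symm.toAlgHom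
  let S := Algebra.adjoin A {j t}
  have h1 : ∀ a : Algebra.adjoin k {t}, j a ∈ S := fun a =>
    (Algebra.adjoin_le (S := (S.restrictScalars k).comap j)
      (Set.singleton_subset_iff.2 (Algebra.self_mem_adjoin_singleton A _))) a.2
  have h2 : ∀ a, IsAlgebraic S (j a) := fun a => by
    have := IsFF.finite_adjoin ht
    exact (IntermediateField.isAlgebraic_adjoin_iff.1 (IsAlgebraic.of_finite
      (IntermediateField.adjoin k {t}) a)).ringHom_of_comp_eq
      ((j.toRingHom.comp (Algebra.adjoin k {t}).val.toRingHom).codRestrict S h1) j.toRingHom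
      (fun x y e => Subtype.ext (j.toRingHom.injective (congrArg Subtype.val e))) rfl
  have h3 : ∀ y, y ∈ Subalgebra.algebraicClosure S (TensorProduct k A (⊤ : Subalgebra k K)) :=
    fun y => by
      induction y with
      | zero => exact zero_mem _
      | add x y hx hy => exact add_mem hx hy
      | tmul c a =>
        rw [show c ⊗ₜ[k] a = algebraMap S _ (algebraMap A S c) * j a from by
          simp [j, ← IsScalarTower.algebraMap_apply]; rfl]
        exact mul_mem (Subalgebra.algebraMap_mem _ _) (h2 a)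
  refine (injective_iff_map_eq_zero _).2 fun y hy => by_contra fun y0 => ?_
  let φ : TensorProduct k A (⊤ : Subalgebra k K) →ₐ[A] Ω :=
    { (Algebra.TensorProduct.productMap A.val (ξ.comp (⊤ : Subalgebra k K).val)).toRingHom with
      commutes' := fun c => by simp }
  refine Ideal.comap_ne_bot_of_algebraic_mem (I := RingHom.ker φ) y0 hy (h3 y)
    (eq_bot_iff.2 fun s hs => ?_)
  obtain ⟨p, hp⟩ := Algebra.adjoin_mem_exists_aeval A _ s.2
  have h4 : φ (Polynomial.aeval (j t) p) = 0 := hp ▸ hs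
  rw [← Polynomial.aeval_algHom_apply, show φ (j t) = ξ t from by simp [φ, j]] at h4
  rw [transcendental_iff.1 h p h4, map_zero] at hp
  exact Subtype.ext hp.symm

variable (F) in
include F in
/-- both embeddings extend to the fraction field of the tensor product of `L` and `K` -/
theorem hom_emb (h0 : ℵ₀ ≤ κ) (hΩ : κ < Cardinal.mk Ω) (hK : Cardinal.mk K ≤ κ)
    (L : IntermediateField k Ω) (hL : Cardinal.mk L ≤ κ) {t : K} {ξ ξ' : K →ₐ[k] Ω}
    (h : Transcendental L (ξ t)) (h' : Transcendental L (ξ' t)) :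
    ∃ σ : Ω ≃ₐ[k] Ω, (∀ y ∈ L, σ y = y) ∧ ∀ a, σ (ξ a) = ξ' a := by
  have := (wbc_inj (F := F) (A := L.toSubalgebra) (B := (⊤ : Subalgebra k K))).isDomain
  have i1 := whom_inj L.toSubalgebra h
  have i2 := whom_inj L.toSubalgebra h'
  have hc : Cardinal.mk (TensorProduct k L.toSubalgebra (⊤ : Subalgebra k K)) ≤ κ := by
    have h1 : ∀ y, Algebra.TensorProduct.productMap L.toSubalgebra.val
        (ξ.comp (⊤ : Subalgebra k K).val) y ∈ IntermediateField.adjoin L (Set.range ξ) := fun y => by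
      induction y with
      | zero => rw [map_zero]; exact zero_mem _
      | add x y hx hy => rw [map_add]; exact add_mem hx hy
      | tmul c a =>
        exact mul_mem (IntermediateField.algebraMap_mem _ (⟨c.1, c.2⟩ : L))
          (IntermediateField.subset_adjoin _ _ ⟨a, rfl⟩)
    refine (Cardinal.mk_le_of_injective (f := fun y => (⟨_, h1 y⟩ :
      IntermediateField.adjoin L (Set.range ξ))) fun x y e => i1 (congrArg Subtype.val e)).trans
      ((IntermediateField.cardinalMk_adjoin_le _ _).trans ?_)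
    exact sup_le (sup_le hL (Cardinal.mk_range_le.trans hK)) h0
  obtain ⟨σ, hσ⟩ := ext_aut h0 hΩ
    (E := FractionRing (TensorProduct k L.toSubalgebra (⊤ : Subalgebra k K)))
    ((IsFractionRing.cardinalMk _ _).trans_le hc)
    (IsFractionRing.lift (g := (Algebra.TensorProduct.productMap L.toSubalgebra.val
      (ξ.comp (⊤ : Subalgebra k K).val)).toRingHom) i1)
    (IsFractionRing.lift (g := (Algebra.TensorProduct.productMap L.toSubalgebra.val
      (ξ'.comp (⊤ : Subalgebra k K).val)).toRingHom) i2)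
  have e : ∀ (c : L.toSubalgebra) (a : (⊤ : Subalgebra k K)), σ (c * ξ a) = c * ξ' a := fun c a => by
    have := hσ (algebraMap _ _ (c ⊗ₜ[k] a))
    rwa [IsFractionRing.lift_algebraMap, IsFractionRing.lift_algebraMap] at this
  have e1 : ∀ y ∈ L, σ y = y := fun y hy => by simpa using e ⟨y, hy⟩ 1
  exact ⟨{ σ with commutes' := fun c => e1 _ (L.algebraMap_mem c) }, e1,
    fun a => by simpa using e 1 ⟨a, trivial⟩⟩

/-- generic nonspecial divisors -/
theorem exists_generic (h0 : ℵ₀ ≤ κ) (hΩ : κ < Cardinal.mk Ω) (hK : Cardinal.mk K ≤ κ) {t : K}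
    (ht : Transcendental k t) {g : ℕ} (hg : IsGen Ω F g) : ∃ ξ : Fin g → (K →ₐ[k] Ω),
      AlgebraicIndependent k (fun i => ξ i t) ∧
        ell (∑ i, Finsupp.single (gen F (ξ i)) (1 : ℤ) : Dv Ω F) = 1 := by
  obtain ⟨_, ⟨ξ, h1, rfl⟩, h2⟩ := hg.choose (fun j x => ∃ ξ : Fin j → (K →ₐ[k] Ω),
    AlgebraicIndependent k (fun i => ξ i t) ∧ x = fun i => gen F (ξ i))
    ⟨Fin.elim0, algebraicIndependent_empty_type, Subsingleton.elim _ _⟩ (by
      rintro j _ ⟨ξ, h1, rfl⟩
      obtain ⟨L, hL, h2, -⟩ := exists_fld h0 hK ht (Finset.univ.image ξ)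
      have := Cardinal.infinite_iff.2 (h0.trans (card_trans h0 hΩ L hL).le)
      choose η hη using fun z : {z : Ω | Transcendental L z} =>
        exists_emb ht (Transcendental.of_tower_top k z.2)
      refine Set.infinite_of_injective_forall_mem (f := fun z => gen F (η z))
        (fun a b e => Subtype.ext (by rw [← hη, ← hη, gen_inj e])) fun z =>
          ⟨Fin.cons (η z) ξ, ?_, funext fun i => by cases i using Fin.cases <;> rfl⟩
      refine (algebraicIndependent_equiv' (finSuccEquiv j) (funext fun i => ?_)).2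
        (AlgebraicIndependent.option_iff.2 ⟨h1, fun h => z.2
          (h.tower_top_of_subalgebra_le (B := L.toSubalgebra) (Algebra.adjoin_le ?_))⟩)
      · cases i using Fin.cases <;> simp [hη]
      · rintro _ ⟨i, rfl⟩
        exact h2 _ (Finset.mem_image_of_mem _ (Finset.mem_univ i)) t)
  exact ⟨ξ, h1, h2⟩

/-- Small orbits: `z ↦ cl (A z)` on the transcendental `z` would have finite fibres. -/
theorem alg_of_orbit (h0 : ℵ₀ ≤ κ) (hΩ : κ < Cardinal.mk Ω) (hP : Cardinal.mk (Pic k K) ≤ κ)
    (L : IntermediateField k Ω) (hL : Cardinal.mk L ≤ κ) {E : Dv Ω F} (hE : 0 ≤ E) (h1 : ell E = 1)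
    (h : ∀ σ : Ω ≃ₐ[k] Ω, (∀ y ∈ L, σ y = y) →
      ∃ A : Dv k K, cl (bc Ω F A) = cl ((ext K F σ).dm E - E))
    {ξ : K →ₐ[k] Ω} (hξ : E (gen F ξ) ≠ 0) (t : K) : IsAlgebraic L (ξ t) := by
  by_contra hn
  have h2 := card_trans h0 hΩ L hL
  have := Cardinal.infinite_iff.2 (h0.trans h2.le)
  choose σ h3 h4 using fun z : {z : Ω | Transcendental L z} => move_trans h0 hΩ L hL hn z.2
  choose A hA using fun z => h (σ z) (h3 z)
  obtain ⟨c, hc⟩ := Cardinal.exists_infinite_fiber (fun z => cl (A z)) (hP.trans_lt h2)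
  obtain ⟨⟨y, hy⟩⟩ := hc.nonempty
  refine Set.infinite_coe_iff.1 hc (((E.support.finite_toSet.image fun Q =>
    σ y (val Q (algebraMap K F t))).preimage Subtype.val_injective.injOn).subset fun z hz => ?_)
  have e := congrArg (ext K F (σ y)⁻¹).pic (sub_left_injective ((map_sub _ _ _).symm.trans
    (((hA z).symm.trans ((cl_bc.2 (hz.trans hy.symm)).trans (hA y))).trans (map_sub _ _ _))))
  rw [SA.pic_cl, SA.pic_cl, ← ext_dm_mul, ← ext_dm_mul, inv_mul_cancel, ext_dm_one] at e
  refine ⟨(ext K F ((σ y)⁻¹ * σ z)).pl (gen F ξ), Finsupp.mem_support_iff.2 ?_, ?_⟩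
  · rwa [← SA.dm_pl (ext K F ((σ y)⁻¹ * σ z)), eq_of_ell hE h1 ((SA.dm_nonneg _).2 hE) e] at hξ
  · simp [val_ext, val_gen, h4]

end

end Pool.Agent.Lib.MP_07b2d0_nt.W
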