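import Pool.Agent.Lib.MP_07b2d0_nt.W.WEv

set_option autoImplicit false
set_option linter.unusedSectionVars false
set_option linter.unusedVariables false

namespace Pool.Agent.Lib.MP_07b2d0_nt.W

open Pool.Agent.Lib.MP_6adaea_nt 
open scoped Classical

noncomputable section

variable {k K : Type} [Field k] [Field K] [Algebra k K] [IsAlgClosed k] [IsFF k K] [CharZero k]

/-- the valuation ring of a place -/
def Ox (x : Place k K) : Subalgebra k K where
  carrier := {a | x.Ge a 0}
  mul_mem' := ge_mul_zero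
  add_mem' := Place.Ge.add
  algebraMap_mem' := x.ge_const

theorem mem_Ox {x : Place k K} {a : K} : a ∈ Ox x ↔ x.Ge a 0 := Iff.rfl

/-- the value as a homomorphism -/
def valH (x : Place k K) : Ox x →ₐ[k] k where
  toFun a := val x a
  map_one' := val_one x
  map_zero' := val_zero x
  map_mul' a b := val_mul a.2 b.2
  map_add' a b := val_add a.2 b.2
  commutes' := val_const x

/-- a Dedekind domain inside `V` with fraction field `K`, finitely generated over `k` -/
theorem wpl_ring (V : ValuationSubring K) (hk : ∀ c : k, algebraMap k K c ∈ V) :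
    ∃ (S : Type) (_ : CommRing S) (_ : IsDedekindDomain S) (_ : Algebra S K)
      (_ : IsFractionRing S K) (s : Finset K),
      (∀ c : k, ∃ a : S, algebraMap S K a = algebraMap k K c) ∧ (∀ a : S, algebraMap S K a ∈ V) ∧
      (∀ y ∈ s, y ∈ V) ∧ ∀ A : Subring K, (∀ c : k, algebraMap k K c ∈ A) → (∀ y ∈ s, y ∈ A) →
        ∀ a : S, algebraMap S K a ∈ A := by
  obtain ⟨t, ht, hV⟩ : ∃ t : K, Transcendental k t ∧ t ∈ V := by
    obtain ⟨t, ht, -⟩ := IsFF.ex (k := k) (K := K)
    rcases V.mem_or_inv_mem t with h | h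
    · exact ⟨t, ht, h⟩
    · exact ⟨t⁻¹, fun e => ht (IsAlgebraic.inv_iff.1 e), h⟩
  obtain ⟨_, h1, h2, h3, h4⟩ := ff2_alg ht
  have h5 := sep0 k (RatFunc k) K
  let _ : Algebra (Polynomial k) K :=
    ((algebraMap (RatFunc k) K).comp (algebraMap (Polynomial k) (RatFunc k))).toAlgebra
  have h6 : IsScalarTower (Polynomial k) (RatFunc k) K :=
    IsScalarTower.of_algebraMap_eq fun _ => rfl
  have hC : ∀ c : k, algebraMap (Polynomial k) K (Polynomial.C c) = algebraMap k K c := fun c => by
    rw [IsScalarTower.algebraMap_apply k (RatFunc k) K]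
    rfl
  have hP : ∀ A : Subring K, (∀ c : k, algebraMap k K c ∈ A) → t ∈ A →
      ∀ f, algebraMap (Polynomial k) K f ∈ A := fun A hA htA f => by
    induction f using Polynomial.induction_on' with
    | add f g hf hg => rw [map_add]; exact A.add_mem hf hg
    | monomial n c =>
      rw [← Polynomial.C_mul_X_pow_eq_monomial, map_mul, map_pow, hC,
        show algebraMap (Polynomial k) K Polynomial.X = t from h3]
      exact A.mul_mem (hA c) (A.pow_mem htA n)
  have h7 : ∀ a : integralClosure (Polynomial k) K, (a : K) ∈ V := fun a => by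
    let _ : Algebra (Polynomial k) V := ((algebraMap (Polynomial k) K).codRestrict V.toSubring
      (hP V.toSubring hk hV)).toAlgebra
    have : IsScalarTower (Polynomial k) V K := IsScalarTower.of_algebraMap_eq fun _ => rfl
    obtain ⟨y, e⟩ := IsIntegrallyClosed.isIntegral_iff.mp (IsIntegral.tower_top (A := V) a.2)
    exact e ▸ y.2
  obtain ⟨s, hs⟩ := (IsIntegralClosure.finite (Polynomial k) (RatFunc k) K
    (integralClosure (Polynomial k) K)).fg_top
  refine ⟨integralClosure (Polynomial k) K, inferInstance,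
    integralClosure.isDedekindDomain (Polynomial k) (RatFunc k) K, inferInstance,
    integralClosure.isFractionRing_of_finite_extension (RatFunc k) K,
    insert t (s.image Subtype.val), fun c => ⟨algebraMap _ _ (Polynomial.C c), hC c⟩, h7,
    fun y hy => ?_, fun A hA h a => ?_⟩
  · rcases Finset.mem_insert.1 hy with rfl | hy
    · exact hV
    · obtain ⟨a, -, rfl⟩ := Finset.mem_image.1 hy
      exact h7 a
  · have ha : a ∈ Submodule.span (Polynomial k) (s : Set (integralClosure (Polynomial k) K)) :=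
      hs ▸ Submodule.mem_top
    induction ha using Submodule.span_induction with
    | mem y hy => exact h _ (Finset.mem_insert_of_mem (Finset.mem_image_of_mem _ hy))
    | zero => exact A.zero_mem
    | add a b _ _ ha hb => exact A.add_mem ha hb
    | smul f a _ ha =>
      rw [Algebra.smul_def, map_mul]
      exact A.mul_mem (hP A hA (h t (Finset.mem_insert_self _ _)) f) ha

/-- `V` is the localisation of `S` at the centre of `V` -/
theorem wpl_loc {S : Type} [CommRing S] [IsDedekindDomain S] [Algebra S K] [IsFractionRing S K]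
    (hK : ∀ c : k, ∃ a : S, algebraMap S K a = algebraMap k K c) (V : ValuationSubring K)
    (hS : ∀ a : S, algebraMap S K a ∈ V) (hV : V ≠ ⊤) : ∃ v : Place k K, (∀ f, f ∈ V ↔ v.Ge f 0) ∧
      ∀ f ∈ V, ∃ a s : S, V.valuation (algebraMap S K s) = 1 ∧
        f * algebraMap S K s = algebraMap S K a := by
  let φ : S →+* V := (algebraMap S K).codRestrict V.toSubring hS
  have m : ∀ a, a ∈ (IsLocalRing.maximalIdeal V).comap φ ↔ V.valuation (algebraMap S K a) < 1 :=
    fun a => V.valuation_lt_one_iff (φ a)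
  have u : ∀ a, a ∉ (IsLocalRing.maximalIdeal V).comap φ → V.valuation (algebraMap S K a) = 1 :=
    fun a ha => le_antisymm ((V.valuation_le_one_iff _).2 (hS a)) (not_lt.1 (mt (m a).2 ha))
  have q : ∀ (f : K) (a s : S), V.valuation (algebraMap S K s) = 1 →
      f * algebraMap S K s = algebraMap S K a →
      V.valuation f = V.valuation (algebraMap S K a) := fun f a s h e => by
    rw [← e, map_mul, h, mul_one]
  have h0 : (IsLocalRing.maximalIdeal V).comap φ ≠ ⊥ := fun e => hV <| eq_top_iff.2 fun f _ => by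
    obtain ⟨a, s, hs, rfl⟩ := IsFractionRing.div_surjective (A := S) f
    rw [← V.valuation_le_one_iff, map_div₀, u s (by rw [e]; exact nonZeroDivisors.ne_zero hs),
      div_one, V.valuation_le_one_iff]
    exact hS a
  let P : IsDedekindDomain.HeightOneSpectrum S := ⟨_, inferInstance, h0⟩
  have key : ∀ f, (half_pl hK P).Ge f 0 → ∃ a s : S, s ∉ P.asIdeal ∧
      f * algebraMap S K s = algebraMap S K a := fun f hf => by
    obtain ⟨a, s, h⟩ := P.exists_primeCompl_mul_eq_of_integer f ((half_ge_zero hK P f).mp hf)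
    exact ⟨a, s, s.2, h⟩
  have up : ∀ f ∈ V, (half_pl hK P).Ge f 0 := fun f hf => by
    by_contra hc
    obtain ⟨f0, f1⟩ := Place.not_ge_iff.1 hc
    have f2 : (half_pl hK P).Ge f⁻¹ 1 := Place.Ge.of_le (by rw [Place.ord_inv]; omega)
    obtain ⟨a, s, hs, e⟩ := key _ (f2.mono zero_le_one)
    have f3 : (half_pl hK P).Ge (algebraMap S K a) 1 := by
      rw [← e]
      simpa using f2.mul (half_ge_int hK P s)
    have f4 := (m a).1 ((half_ge_one hK P a).1 f3)
    rw [← q _ a s (u s hs) e] at f4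
    exact (V.inv_mem_nonunits_iff.1 f4).elim f0 fun h => h hf
  refine ⟨half_pl hK P, fun f => ⟨up f, fun hf => ?_⟩, fun f hf => ?_⟩
  · obtain ⟨a, s, hs, e⟩ := key f hf
    rw [← V.valuation_le_one_iff, q f a s (u s hs) e, V.valuation_le_one_iff]
    exact hS a
  · obtain ⟨a, s, hs, e⟩ := key f (up f hf)
    exact ⟨a, s, u s hs, e⟩

/-- a proper valuation subring that contains `k` is the ring of a place -/
theorem exists_place_of_vs (V : ValuationSubring K) (hk : ∀ c : k, algebraMap k K c ∈ V)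
    (hV : V ≠ ⊤) : ∃ v : Place k K, ∀ f, f ∈ V ↔ v.Ge f 0 := by
  obtain ⟨S, _, _, _, _, s, h1, h2, -⟩ := wpl_ring V hk
  obtain ⟨v, hv, -⟩ := wpl_loc h1 V h2 hV
  exact ⟨v, hv⟩

theorem exists_place_of_ideal (A : Subring K) (hk : ∀ c : k, algebraMap k K c ∈ A) (I : Ideal A)
    (hI : I ≠ ⊤) (h0 : I ≠ ⊥) :
    ∃ v : Place k K, (∀ a ∈ A, v.Ge a 0) ∧ ∀ a ∈ I, v.Ge (a : K) 1 := by
  obtain ⟨B, h1, h2⟩ := I.image_subset_nonunits_valuationSubring hI
  have h3 : ∀ a ∈ I, (a : K) = 0 ∨ (a : K)⁻¹ ∉ B := fun a ha =>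
    B.mem_nonunits_iff_or.1 (h2 ⟨a, ha, rfl⟩)
  obtain ⟨v, hv⟩ := exists_place_of_vs (k := k) B (fun c => h1 (hk c)) fun e => by
    obtain ⟨a, ha, a0⟩ := Submodule.exists_mem_ne_zero_of_ne_bot h0
    exact (h3 a ha).elim (fun z => a0 (Subtype.ext z)) fun z => z (e ▸ ValuationSubring.mem_top _)
  refine ⟨v, fun a ha => (hv a).1 (h1 ha), fun a ha => (h3 a ha).imp id fun z => ?_⟩
  have := (Place.not_ge_iff.1 (mt (hv _).2 z)).2
  rw [Place.ord_inv] at this
  omega

/-- The valuation ring is a localisation of a finitely generated algebra. -/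
theorem exists_gens (x : Place k K) : ∃ s : Finset K, (∀ y ∈ s, x.Ge y 0) ∧ ∀ A : Subring K,
    (∀ c : k, algebraMap k K c ∈ A) → (∀ y ∈ s, y ∈ A) → (∀ a ∈ A, x.ord a = 0 → a⁻¹ ∈ A) →
      ∀ a, x.Ge a 0 → a ∈ A := by
  obtain ⟨S, _, _, _, _, s, h1, h2, h3, h4⟩ := wpl_ring x.O fun c => x.mem_O.2 (x.ge_const c)
  obtain ⟨-, -, hv⟩ := wpl_loc h1 x.O h2 fun e => by
    obtain ⟨t, t0, t1⟩ := x.exists_ord_eq (-1)
    have := (x.mem_O.1 (e ▸ ValuationSubring.mem_top t)).le t0
    omega
  refine ⟨s, fun y hy => x.mem_O.1 (h3 y hy), fun A hA hs hi f hf => ?_⟩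
  obtain ⟨a, b, hb, e⟩ := hv f (x.mem_O.2 hf)
  have b0 : algebraMap S K b ≠ 0 := fun z => by simp [z] at hb
  have b1 := (x.mem_O.1 (h2 b)).le b0
  have b2 := (x.mem_O.1 ((x.O.valuation_le_one_iff (algebraMap S K b)⁻¹).1
    (by rw [map_inv₀, hb, inv_one]))).le (inv_ne_zero b0)
  rw [Place.ord_inv] at b2
  rw [(eq_mul_inv_iff_mul_eq₀ b0).2 e]
  exact A.mul_mem (h4 A hA hs a) (hi _ (h4 A hA hs b) (by omega))

end

end Pool.Agent.Lib.MP_07b2d0_nt.W
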