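import Pool.Agent.Lib.MP_07b2d0_nt.W.WRie0b

set_option autoImplicit false
set_option linter.unusedSectionVars false
set_option linter.unusedVariables false

namespace Pool.Agent.Lib.MP_07b2d0_nt.W

open Pool.Agent.Lib.MP_6adaea_nt Module
open scoped Classical

noncomputable section

variable {k K : Type} [Field k] [Field K] [Algebra k K] [IsAlgClosed k] [IsFF k K] [CharZero k]
  {D D' E : Dv k K} {f : K}

theorem LL_mono (h : D ≤ D') : LL D ≤ LL D' := fun _ hf v => (hf v).mono (neg_le_neg (h v))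

instance LL_fin (D : Dv k K) : FiniteDimensional k (LL D) := by
  let m : Place k K →₀ ℕ := D.mapRange Int.toNat rfl
  have h1 : Module.rank k (LL D) ≤ ((m.sum fun _ a => a) + 1 : ℕ) := by
    refine rank_le fun s hs => ?_
    have h3 := finrank_span_eq_card (hs.map' (LL D).subtype (Submodule.ker_subtype _))
    have h4 : FiniteDimensional k
        (Submodule.span k (Set.range ((LL D).subtype ∘ fun i : s => (i : LL D)))) :=
      FiniteDimensional.span_of_finite k (Set.finite_range _)
    have h5 := finrank_le0 _ m le_rfl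
      (Submodule.span k (Set.range ((LL D).subtype ∘ fun i : s => (i : LL D)))) fun f hf v => by
        have h6 : f ∈ LL D := by
          refine Submodule.span_le.mpr ?_ hf
          rintro _ ⟨i, rfl⟩
          exact i.1.2
        exact (h6 v).mono (neg_le_neg (Int.self_le_toNat _))
    rwa [h3, Fintype.card_coe] at h5
  exact Module.rank_lt_aleph0_iff.mp (h1.trans_lt Cardinal.natCast_lt_aleph0)

theorem ell_mono (h : D ≤ D') : ell D ≤ ell D' := Submodule.finrank_mono (LL_mono h)

theorem ell_succ_le (D : Dv k K) (v : Place k K) : ell (D + Finsupp.single v 1) ≤ ell D + 1 := by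
  have hU : ∀ f ∈ LL (D + Finsupp.single v 1), v.Ge f (-D v - 1) := fun f hf =>
    (hf v).mono (by rw [Finsupp.add_apply, Finsupp.single_eq_same]; omega)
  have hV : ∀ f ∈ LL (D + Finsupp.single v 1), v.Ge f (-D v) → f ∈ LL D := fun f hf h w => by
    by_cases hw : w = v
    · exact hw ▸ h
    · simpa [Finsupp.single_eq_of_ne hw] using hf w
  by_cases h2 : LL (D + Finsupp.single v 1) ≤ LL D
  · exact (Submodule.finrank_mono h2).trans (Nat.le_succ _)
  obtain ⟨g, hg, hg'⟩ := SetLike.not_le_iff_exists.mp h2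
  obtain ⟨g0, hg1⟩ := Place.not_ge_iff.mp fun h => hg' (hV g hg h)
  have hg2 := (hU g hg).le g0
  have h3 : LL (D + Finsupp.single v 1) ≤ LL D ⊔ Submodule.span k {g} := fun f hf => by
    have h4 : v.Ge (f / g) 0 := by
      rw [div_eq_mul_inv, Place.ge_mul_iff (inv_ne_zero g0), Place.ord_inv]
      exact (hU f hf).mono (by omega)
    obtain ⟨c, hc⟩ := v.exists_res h4
    have h5 : v.Ge (f - c • g) (-D v) := by
      have := hc.mul (v.ge_ord g)
      rw [sub_mul, div_mul_cancel₀ _ g0, ← Algebra.smul_def] at this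
      exact this.mono (by omega)
    rw [← sub_add_cancel f (c • g)]
    exact Submodule.add_mem_sup (hV _ (Submodule.sub_mem _ hf (Submodule.smul_mem _ c hg)) h5)
      (Submodule.smul_mem _ c (Submodule.mem_span_singleton_self g))
  have h7 := Submodule.finrank_mono h3
  have h8 := Submodule.finrank_add_le_finrank_add_finrank (LL D) (Submodule.span k {g})
  rw [finrank_span_singleton g0] at h8
  exact h7.trans h8

theorem ell_add_le (D : Dv k K) (hE : 0 ≤ E) : (ell (D + E) : ℤ) ≤ ell D + deg E := by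
  obtain ⟨n, hn⟩ := Int.eq_ofNat_of_zero_le (deg_nonneg hE)
  induction n generalizing E with
  | zero => rw [eq_zero_of_deg_le hE hn.le]; simp
  | succ n ih =>
    obtain ⟨v, hv⟩ := Finsupp.ne_iff.mp (show E ≠ 0 by rintro rfl; rw [map_zero] at hn; omega)
    have h0 : (0 : ℤ) ≤ E v := hE v
    have hv' : E v ≠ 0 := hv
    have hle : Finsupp.single v 1 ≤ E := fun w => by
      by_cases hw : w = v
      · rw [hw, Finsupp.single_eq_same]; omega
      · rw [Finsupp.single_eq_of_ne hw]; exact hE w
    have h1 : deg (E - Finsupp.single v 1) = n := by rw [map_sub, deg_single, hn]; omega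
    have h2 := ih (sub_nonneg.mpr hle) h1
    have h3 := ell_succ_le (D + (E - Finsupp.single v 1)) v
    rw [add_assoc, sub_add_cancel] at h3
    omega

theorem wrie0_le (D : Dv k K) (hf : f ≠ 0) : ell (D + dv k f) ≤ ell D :=
  LinearMap.finrank_le_finrank_of_injective (f := (LinearMap.mulRight k f).restrict
    (p := LL (D + dv k f)) (q := LL D) fun g hg v => (Place.ge_mul_iff hf).2
      ((hg v).mono (by rw [Finsupp.add_apply, dv_apply]; omega)))
    fun _ _ h => Subtype.ext (mul_right_cancel₀ hf (congrArg Subtype.val h))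

theorem ell_add_dv (D : Dv k K) (hf : f ≠ 0) : ell (D + dv k f) = ell D := by
  refine (wrie0_le D hf).antisymm ?_
  have := wrie0_le (D + dv k f) (inv_ne_zero hf)
  rwa [dv_inv, add_neg_cancel_right] at this

theorem LL_eq_bot (h : deg D < 0) : LL D = ⊥ := by
  refine (Submodule.eq_bot_iff _).2 fun f hf => by_contra fun h0 => ?_
  have := deg_nonneg ((mem_LL_iff h0).1 hf)
  rw [map_add, deg_dv] at this
  omega

theorem ell_zero : ell (0 : Dv k K) = 1 := by
  have : LL (0 : Dv k K) = Submodule.span k {(1 : K)} := by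
    refine le_antisymm (fun f hf => ?_) ((Submodule.span_singleton_le_iff_mem _ _).2 fun v => ?_)
    · obtain ⟨c, rfl⟩ := const_of_ge (k := k) (f := f) fun v => by simpa using hf v
      exact Submodule.mem_span_singleton.mpr ⟨c, by rw [Algebra.smul_def, mul_one]⟩
    · simpa using v.ge_one
  rw [ell, this, finrank_span_singleton one_ne_zero]

theorem ell_pos_iff : 0 < ell D ↔ ∃ f : K, f ≠ 0 ∧ 0 ≤ D + dv k f := by
  rw [ell, pos_iff_ne_zero, Ne, Submodule.finrank_eq_zero, ← Ne, Submodule.ne_bot_iff]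
  exact ⟨fun ⟨f, h, h0⟩ => ⟨f, h0, (mem_LL_iff h0).1 h⟩,
    fun ⟨f, h0, h⟩ => ⟨f, (mem_LL_iff h0).2 h, h0⟩⟩

theorem const_of_ell (hE : 0 ≤ E) (h : ell E = 1) (hf : f ∈ LL E) :
    ∃ c, f = algebraMap k K c := by
  have : LL (0 : Dv k K) = LL E :=
    Submodule.eq_of_le_of_finrank_eq (LL_mono hE) (ell_zero.trans h.symm)
  rw [← this] at hf
  exact const_of_ge fun v => by simpa using hf v

theorem eq_of_ell {E' : Dv k K} (hE : 0 ≤ E) (h : ell E = 1) (hE' : 0 ≤ E') (e : cl E' = cl E) :
    E' = E := by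
  obtain ⟨f, h0, hf⟩ := cl_eq.1 e
  obtain ⟨c, rfl⟩ := const_of_ell hE h ((mem_LL_iff h0).2 (by rwa [hf, add_sub_cancel]))
  rw [dv_const] at hf
  exact sub_eq_zero.1 hf.symm

/-- Riemann's inequality -/
theorem riemann0 : ∃ C : ℤ, ∀ D : Dv k K, deg D - ell D ≤ C := by
  obtain ⟨β, B, h0, h1, h2⟩ := wrie0b_main (k := k) (K := K)
  refine ⟨deg β, fun D => ?_⟩
  obtain ⟨s, hs, m, h⟩ := h1 D
  have h3 := ell_add_le D (sub_nonneg.2 (h.trans (le_add_of_nonneg_left h0)))
  rw [add_sub_cancel, add_comm (dv k s), ← add_assoc, ell_add_dv _ hs, map_sub, map_add, map_add,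
    deg_dv, map_nsmul, nsmul_eq_mul] at h3
  linarith [h2 m inferInstance]

end

end Pool.Agent.Lib.MP_07b2d0_nt.W
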